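import Pool.Agent.Y150.Ch.Fc

/-!
# Unipotent elements in abelian, almost normal subgroups of the holonomy
-/

set_option autoImplicit false

open Set

namespace Pool.Agent.Y150.Ch

open Pool.Agent.W689.Mk (lin hol_add hol_sub hol_inv_apply hol_apply_inv lin_inv_apply lin_mul)

variable {Γ E : Type} [Group Γ] [NormedAddCommGroup E] [NormedSpace ℝ E]
  (hol : Γ →* (E ≃ᵃ[ℝ] E))

/-- the linear part -/
def T : Γ →* Module.End ℝ E where
  toFun γ := ((hol γ).linear : E →ₗ[ℝ] E)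
  map_one' := by
    apply LinearMap.ext
    intro v
    show (hol 1).linear v = v
    rw [map_one]
    rfl
  map_mul' γ δ := LinearMap.ext fun v => lin_mul (hol := hol) γ δ v

theorem T_apply (γ : Γ) (v : E) : T hol γ v = lin hol γ v := rfl

/-- the displacement -/
def dp (γ : Γ) (p : E) : E := hol γ p - p

/-- the unipotency condition at the point `p` -/
def cond (γ : Γ) (k : ℕ) (p : E) : Prop := ((T hol γ - 1) ^ k) (dp hol γ p) = 0

theorem T_sub (γ : Γ) (p q : E) : T hol γ (p - q) = hol γ p - hol γ q :=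
  (hol_sub (hol := hol) γ p q).symm

theorem dp_mul (γ δ : Γ) (p : E) : dp hol (γ * δ) p = T hol γ (dp hol δ p) + dp hol γ p := by
  unfold dp
  rw [T_sub, map_mul]
  show hol γ (hol δ p) - p = _
  abel

theorem dp_one (p : E) : dp hol 1 p = 0 := by
  unfold dp
  rw [map_one]
  exact sub_self p

theorem dp_pow (γ : Γ) (m : ℕ) (p : E) :
    dp hol (γ ^ m) p = (∑ i ∈ Finset.range m, (T hol γ) ^ i) (dp hol γ p) := by
  induction m with
  | zero => rw [pow_zero, dp_one, Finset.range_zero, Finset.sum_empty]; rfl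
  | succ m ih =>
    rw [pow_succ, dp_mul, ih, Finset.sum_range_succ, LinearMap.add_apply, map_pow, add_comm]

theorem T_pow_sub (γ : Γ) (m : ℕ) :
    T hol (γ ^ m) - 1 = (T hol γ - 1) * ∑ i ∈ Finset.range m, (T hol γ) ^ i := by
  rw [map_pow]
  exact (mul_geom_sum (T hol γ) m).symm

theorem comm_sum (A : Module.End ℝ E) (m : ℕ) :
    Commute (A - 1) (∑ i ∈ Finset.range m, A ^ i) := by
  refine Commute.sum_right _ _ _ fun i _ => ?_
  exact (Commute.sub_left (Commute.refl A) (Commute.one_left A)).pow_right i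

theorem cond_pow {γ : Γ} {k : ℕ} {p : E} (h : cond hol γ k p) (m : ℕ) {k' : ℕ} (hk : k ≤ k') :
    cond hol (γ ^ m) k' p := by
  unfold cond at h ⊢
  have hc := comm_sum (T hol γ) m
  obtain ⟨j, rfl⟩ := Nat.exists_eq_add_of_le hk
  rw [dp_pow, T_pow_sub, hc.mul_pow]
  set S := ∑ i ∈ Finset.range m, (T hol γ) ^ i
  set N := T hol γ - 1
  have h1 : N ^ (k + j) * S ^ (k + j) * S = (S ^ (k + j) * S * N ^ j) * N ^ k := by
    have h2 : Commute (N ^ (k + j)) (S ^ (k + j) * S) :=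
      ((hc.pow_left _).pow_right _).mul_right (hc.pow_left _)
    rw [mul_assoc, h2.eq, mul_assoc, mul_assoc, mul_assoc, ← pow_add, add_comm j k]
  have h3 := LinearMap.congr_fun h1 (dp hol γ p)
  have h4 : (S ^ (k + j) * S * N ^ j * N ^ k) (dp hol γ p) = 0 := by
    rw [Module.End.mul_apply, h, map_zero]
  rw [h4] at h3
  exact h3

theorem dp_conj (δ γ : Γ) (p : E) : dp hol (δ * γ * δ⁻¹) (hol δ p) = T hol δ (dp hol γ p) := by
  unfold dp
  rw [T_sub, map_mul, map_mul]
  show hol δ (hol γ (hol δ⁻¹ (hol δ p))) - hol δ p = _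
  rw [hol_inv_apply]

theorem semi (δ γ : Γ) (k : ℕ) :
    T hol δ * (T hol γ - 1) ^ k = (T hol (δ * γ * δ⁻¹) - 1) ^ k * T hol δ := by
  have h : SemiconjBy (T hol δ) (T hol γ - 1) (T hol (δ * γ * δ⁻¹) - 1) := by
    show T hol δ * (T hol γ - 1) = (T hol (δ * γ * δ⁻¹) - 1) * T hol δ
    rw [mul_sub, sub_mul, mul_one, one_mul, ← map_mul, ← map_mul, inv_mul_cancel_right]
  exact h.pow_right k

theorem Lk_conj (δ γ : Γ) (k : ℕ) (p : E) :
    ((T hol (δ * γ * δ⁻¹) - 1) ^ k) (dp hol (δ * γ * δ⁻¹) (hol δ p)) =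
      T hol δ (((T hol γ - 1) ^ k) (dp hol γ p)) := by
  rw [dp_conj]
  exact (LinearMap.congr_fun (semi hol δ γ k) (dp hol γ p)).symm

theorem cond_conj {δ γ : Γ} {k : ℕ} {p : E} (h : cond hol γ k p) :
    cond hol (δ * γ * δ⁻¹) k (hol δ p) := by
  unfold cond at h ⊢
  rw [Lk_conj, h, map_zero]

theorem dp_aff (γ : Γ) (c : ℝ) (p q r : E) :
    dp hol γ (c • (p - q) + r) = c • (dp hol γ p - dp hol γ q) + dp hol γ r := by
  have h1 : hol γ (c • (p - q) + r) = hol γ r + c • (hol γ p - hol γ q) := by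
    rw [add_comm, hol_add]
    show hol γ r + T hol γ (c • (p - q)) = _
    rw [map_smul, T_sub]
  unfold dp
  rw [h1]
  module

theorem cond_aff {γ : Γ} {k : ℕ} {p q r : E} (c : ℝ) (hp : cond hol γ k p) (hq : cond hol γ k q)
    (hr : cond hol γ k r) : cond hol γ k (c • (p - q) + r) := by
  unfold cond at *
  rw [dp_aff, map_add, map_smul, map_sub, hp, hq, hr]
  simp

variable {hol}

theorem dir_T {H : AffineSubspace ℝ E} {p₀ : E} (hp : p₀ ∈ H) {γ : Γ}
    (hinv : ∀ q ∈ H, hol γ q ∈ H) {v : E} (hv : v ∈ H.direction) : T hol γ v ∈ H.direction := by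
  have h0 : p₀ + v ∈ H := by
    have := AffineSubspace.vadd_mem_of_mem_direction hv hp
    rwa [vadd_eq_add, add_comm] at this
  have h1 := AffineSubspace.vsub_mem_direction (hinv _ h0) (hinv _ hp)
  rw [vsub_eq_sub, ← T_sub, add_sub_cancel_left] at h1
  exact h1

theorem dp_mem {H : AffineSubspace ℝ E} {γ : Γ} (hinv : ∀ q ∈ H, hol γ q ∈ H) {p : E}
    (hp : p ∈ H) : dp hol γ p ∈ H.direction :=
  AffineSubspace.vsub_mem_direction (hinv _ hp) hp

theorem N_mem {H : AffineSubspace ℝ E} {p₀ : E} (hp : p₀ ∈ H) {γ : Γ}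
    (hinv : ∀ q ∈ H, hol γ q ∈ H) (k : ℕ) {v : E} (hv : v ∈ H.direction) :
    ((T hol γ - 1) ^ k) v ∈ H.direction := by
  induction k with
  | zero => exact hv
  | succ k ih =>
    rw [pow_succ', Module.End.mul_apply, LinearMap.sub_apply]
    exact H.direction.sub_mem (dir_T hp hinv ih) ih

/-- elements with the same action on `H` -/
theorem T_congr {H : AffineSubspace ℝ E} {p₀ : E} (hp : p₀ ∈ H) {a b : Γ}
    (h : ∀ q ∈ H, hol a q = hol b q) {v : E} (hv : v ∈ H.direction) : T hol a v = T hol b v := by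
  have h0 : p₀ + v ∈ H := by
    have := AffineSubspace.vadd_mem_of_mem_direction hv hp
    rwa [vadd_eq_add, add_comm] at this
  have h1 : v = (p₀ + v) - p₀ := by abel
  rw [h1, T_sub, T_sub, h _ h0, h _ hp]

theorem N_congr {H : AffineSubspace ℝ E} {p₀ : E} (hp : p₀ ∈ H) {a b : Γ}
    (h : ∀ q ∈ H, hol a q = hol b q) (hb : ∀ q ∈ H, hol b q ∈ H) (k : ℕ) {v : E}
    (hv : v ∈ H.direction) : ((T hol a - 1) ^ k) v = ((T hol b - 1) ^ k) v := by
  induction k with
  | zero => rfl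
  | succ k ih =>
    rw [pow_succ', pow_succ', Module.End.mul_apply, Module.End.mul_apply, ih, LinearMap.sub_apply,
      LinearMap.sub_apply, T_congr hp h (N_mem hp hb k hv)]

theorem Lk_congr {H : AffineSubspace ℝ E} {a b : Γ} (h : ∀ q ∈ H, hol a q = hol b q)
    (hb : ∀ q ∈ H, hol b q ∈ H) (k : ℕ) {p : E} (hp : p ∈ H) :
    ((T hol a - 1) ^ k) (dp hol a p) = ((T hol b - 1) ^ k) (dp hol b p) := by
  have h1 : dp hol a p = dp hol b p := by unfold dp; rw [h _ hp]
  rw [h1]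
  exact N_congr hp h hb k (dp_mem hb hp)

theorem cond_congr {H : AffineSubspace ℝ E} {a b : Γ} (h : ∀ q ∈ H, hol a q = hol b q)
    (hb : ∀ q ∈ H, hol b q ∈ H) {k : ℕ} {p : E} (hp : p ∈ H) (hc : cond hol b k p) :
    cond hol a k p := by
  unfold cond at hc ⊢
  rw [Lk_congr h hb k hp, hc]

theorem pow_eq {H : AffineSubspace ℝ E} {a b : Γ} (h : ∀ q ∈ H, hol a q = hol b q)
    (hb : ∀ q ∈ H, hol b q ∈ H) (m : ℕ) : ∀ q ∈ H, hol (a ^ m) q = hol (b ^ m) q := by
  induction m with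
  | zero => intro q _; rw [pow_zero, pow_zero]
  | succ m ih =>
    intro q hq
    rw [pow_succ, pow_succ, map_mul, map_mul]
    show hol (a ^ m) (hol a q) = hol (b ^ m) (hol b q)
    rw [h q hq, ih _ (hb q hq)]

/-- the fixed points up to unipotents, for the powers with exponents in `M` -/
def Aff (hol : Γ →* (E ≃ᵃ[ℝ] E)) (M : Submonoid ℕ) (H : AffineSubspace ℝ E) (γ : Γ) :
    AffineSubspace ℝ E where
  carrier := {p | p ∈ H ∧ ∃ m ∈ M, ∃ k, cond hol (γ ^ m) k p}
  smul_vsub_vadd_mem' := by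
    rintro c p q r ⟨hp, m1, hm1, k1, h1⟩ ⟨hq, m2, hm2, k2, h2⟩ ⟨hr, m3, hm3, k3, h3⟩
    refine ⟨AffineSubspace.smul_vsub_vadd_mem H c hp hq hr, m1 * m2 * m3,
      M.mul_mem (M.mul_mem hm1 hm2) hm3, max k1 (max k2 k3), ?_⟩
    rw [vsub_eq_sub, vadd_eq_add]
    refine cond_aff hol c ?_ ?_ ?_
    · have := cond_pow hol h1 (m2 * m3) (le_max_left k1 (max k2 k3))
      rwa [← pow_mul, ← mul_assoc] at this
    · have := cond_pow hol h2 (m1 * m3) ((le_max_left k2 k3).trans (le_max_right k1 (max k2 k3)))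
      rwa [← pow_mul, show m2 * (m1 * m3) = m1 * m2 * m3 by ring] at this
    · have := cond_pow hol h3 (m1 * m2) ((le_max_right k2 k3).trans (le_max_right k1 (max k2 k3)))
      rwa [← pow_mul, show m3 * (m1 * m2) = m1 * m2 * m3 by ring] at this

theorem mem_Aff {M : Submonoid ℕ} {H : AffineSubspace ℝ E} {γ : Γ} {p : E} :
    p ∈ Aff hol M H γ ↔ p ∈ H ∧ ∃ m ∈ M, ∃ k, cond hol (γ ^ m) k p := Iff.rfl

section fin
variable [FiniteDimensional ℝ E]

/-- an invariant subspace contains a point that is fixed up to unipotents -/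
theorem exists_cond {B : AffineSubspace ℝ E} {p₀ : E} (hp : p₀ ∈ B) {γ : Γ}
    (hinv : ∀ q ∈ B, hol γ q ∈ B) : ∃ p ∈ B, ∃ k, cond hol γ k p := by
  let N : Module.End ℝ B.direction :=
    { toFun := fun v => ⟨(T hol γ - 1) v.1, by
        rw [LinearMap.sub_apply]
        exact B.direction.sub_mem (dir_T hp hinv v.2) v.2⟩
      map_add' := fun v w => Subtype.ext (map_add _ _ _)
      map_smul' := fun c v => Subtype.ext (map_smul _ _ _) }
  have hN : ∀ (k : ℕ) (v : B.direction), (((N ^ k) v : B.direction) : E) = ((T hol γ - 1) ^ k) v.1 := by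
    intro k
    induction k with
    | zero => intro v; rfl
    | succ k ih =>
      intro v
      rw [pow_succ', pow_succ', Module.End.mul_apply, Module.End.mul_apply, ← ih v]
      rfl
  obtain ⟨k, hk⟩ := IsArtinian.monotone_stabilizes N.iterateRange
  have h1 := hk (k + 1) (Nat.le_succ k)
  have h2 : LinearMap.range (N ^ k) = LinearMap.range (N ^ (k + 1)) := h1
  have h3 : (N ^ k) (-⟨dp hol γ p₀, dp_mem hinv hp⟩) ∈ LinearMap.range (N ^ (k + 1)) := by
    rw [← h2]; exact ⟨_, rfl⟩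
  obtain ⟨w, hw⟩ := h3
  refine ⟨p₀ + w.1, ?_, k, ?_⟩
  · have := AffineSubspace.vadd_mem_of_mem_direction w.2 hp
    rwa [vadd_eq_add, add_comm] at this
  · unfold cond
    have h4 : dp hol γ (p₀ + w.1) = dp hol γ p₀ + (T hol γ - 1) w.1 := by
      unfold dp
      rw [hol_add]
      show hol γ p₀ + T hol γ w.1 - _ = _
      rw [LinearMap.sub_apply]
      show _ = hol γ p₀ - p₀ + (T hol γ w.1 - w.1)
      abel
    rw [h4, map_add, ← Module.End.mul_apply, ← pow_succ]
    have h5 := congrArg Subtype.val hw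
    rw [hN, hN] at h5
    rw [h5]
    show _ + ((T hol γ - 1) ^ k) (-(dp hol γ p₀)) = 0
    rw [map_neg, add_neg_cancel]

/-- if an affine subspace contains a point and the translates by a basis, it contains `H` -/
theorem le_of_basis {H A : AffineSubspace ℝ E} {p₀ : E} (hp : p₀ ∈ H) (hA : p₀ ∈ A)
    (h : ∀ i, p₀ + (Module.finBasis ℝ H.direction i : E) ∈ A) : H ≤ A := by
  have h1 : H.direction ≤ A.direction := by
    intro v hv
    have h2 : (⟨v, hv⟩ : H.direction) ∈ (A.direction.comap H.direction.subtype) := by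
      have h3 : (⊤ : Submodule ℝ H.direction) ≤ A.direction.comap H.direction.subtype := by
        rw [← (Module.finBasis ℝ H.direction).span_eq, Submodule.span_le]
        rintro _ ⟨i, rfl⟩
        have h4 := AffineSubspace.vsub_mem_direction (h i) hA
        rw [vsub_eq_sub, add_sub_cancel_left] at h4
        exact h4
      exact h3 trivial
    exact h2
  intro q hq
  have h2 : q - p₀ ∈ A.direction := h1 (AffineSubspace.vsub_mem_direction hq hp)
  have h3 := AffineSubspace.vadd_mem_of_mem_direction h2 hA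
  rwa [vadd_eq_add, sub_add_cancel] at h3

/-- uniform choice of an index in a directed family -/
theorem exists_unif {ι α : Type*} [Finite α] (P : ι → α → Prop) (i₀ : ι)
    (hdir : ∀ i j, ∃ l, ∀ a, (P i a ∨ P j a) → P l a) (h : ∀ a, ∃ i, P i a) :
    ∃ i, ∀ a, P i a := by
  classical
  have := Fintype.ofFinite α
  have key : ∀ s : Finset α, ∃ i, ∀ a ∈ s, P i a := by
    intro s
    induction s using Finset.induction with
    | empty => exact ⟨i₀, fun a ha => absurd ha (Finset.notMem_empty a)⟩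
    | insert a s _ ih =>
      obtain ⟨i, hi⟩ := ih
      obtain ⟨j, hj⟩ := h a
      obtain ⟨l, hl⟩ := hdir i j
      refine ⟨l, fun b hb => ?_⟩
      rcases Finset.mem_insert.1 hb with rfl | hb
      · exact hl _ (Or.inr hj)
      · exact hl _ (Or.inl (hi b hb))
  obtain ⟨i, hi⟩ := key Finset.univ
  exact ⟨i, fun a => hi a (Finset.mem_univ a)⟩

/-- a commuting family has a point that is fixed up to unipotents -/
theorem exists_common {H : AffineSubspace ℝ E} {p₀ : E} (hp : p₀ ∈ H) {N : Subgroup Γ}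
    (hinv : ∀ a ∈ N, ∀ q ∈ H, hol a q ∈ H)
    (hcom : ∀ a ∈ N, ∀ b ∈ N, ∀ q ∈ H, hol a (hol b q) = hol b (hol a q)) (M : Submonoid ℕ) :
    ∃ p ∈ H, ∀ a ∈ N, p ∈ Aff hol M H a := by
  classical
  let P : ℕ → Prop := fun n => ∃ B : AffineSubspace ℝ E, B ≤ H ∧ (∃ p, p ∈ B) ∧
    (∀ a ∈ N, ∀ q ∈ B, hol a q ∈ B) ∧ Module.finrank ℝ B.direction = n
  have hP : ∃ n, P n := ⟨_, H, le_rfl, ⟨p₀, hp⟩, hinv, rfl⟩
  obtain ⟨B, hBH, ⟨p, hpB⟩, hBinv, hBn⟩ := Nat.find_spec hP
  refine ⟨p, hBH hpB, fun a ha => ?_⟩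
  obtain ⟨q, hqB, k, hk⟩ := exists_cond hpB (γ := a) (hBinv a ha)
  let B' := B ⊓ Aff hol M H a
  have hB' : P (Module.finrank ℝ B'.direction) := by
    refine ⟨B', inf_le_left.trans hBH, ⟨q, hqB, hBH hqB, 1, M.one_mem, k, ?_⟩, ?_, rfl⟩
    · rwa [pow_one]
    · rintro b hb r ⟨hr1, hr2, m, hm, k', hk'⟩
      refine ⟨hBinv b hb r hr1, hinv b hb r hr2, m, hm, k', ?_⟩
      have h1 := cond_conj (δ := b) hol hk'
      refine cond_congr (H := H) ?_ ?_ (hinv b hb r hr2) h1
      · intro s hs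
        rw [map_mul, map_mul]
        show hol (a ^ m) s = hol b (hol (a ^ m) (hol b⁻¹ s))
        rw [hcom b hb (a ^ m) (N.pow_mem ha m) _ (hinv _ (N.inv_mem hb) s hs), hol_apply_inv]
      · exact hinv _ (N.mul_mem (N.mul_mem hb (N.pow_mem ha m)) (N.inv_mem hb))
  have h1 := Nat.find_min' hP hB'
  rw [← hBn] at h1
  have h2 : B'.direction = B.direction :=
    Submodule.eq_of_le_of_finrank_le (AffineSubspace.direction_le inf_le_left) h1
  have hq' : q ∈ B' := ⟨hqB, hBH hqB, 1, M.one_mem, k, by rwa [pow_one]⟩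
  have h3 : p - q ∈ B'.direction := by
    rw [h2]; exact AffineSubspace.vsub_mem_direction hpB hqB
  have h4 := AffineSubspace.vadd_mem_of_mem_direction h3 hq'
  rw [vadd_eq_add, sub_add_cancel] at h4
  exact h4.2

omit [FiniteDimensional ℝ E] in
theorem star_affine {S : AffineSubspace ℝ E} {p : E} (hp : p ∈ S) : StarConvex ℝ p (S : Set E) :=
  S.convex.starConvex hp

/-- the elements of an abelian almost normal subgroup are unipotent up to powers -/
theorem unip {H : AffineSubspace ℝ E} {p₀ : E} (hp : p₀ ∈ H) {K N : Subgroup Γ}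
    (hK : ∀ γ ∈ K, ∀ q ∈ H, hol γ q ∈ H)
    (hstar : ∀ (S : Set E) (p : E), p ∈ S → S ⊆ H → StarConvex ℝ p S →
      (∀ γ ∈ K, ∀ q ∈ S, hol γ q ∈ S) → S = H)
    (hinv : ∀ a ∈ N, ∀ q ∈ H, hol a q ∈ H)
    (hcom : ∀ a ∈ N, ∀ b ∈ N, ∀ q ∈ H, hol a (hol b q) = hol b (hol a q)) (M : Submonoid ℕ)
    (hnor : ∀ γ ∈ K, ∀ a ∈ N, ∃ m ∈ M, ∃ b ∈ N, ∀ q ∈ H, hol (γ * a ^ m * γ⁻¹) q = hol b q) :
    ∀ a ∈ N, ∃ m ∈ M, ∃ k, ∀ p ∈ H, cond hol (a ^ m) k p := by
  obtain ⟨p, hpH, hpA⟩ := exists_common hp hinv hcom M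
  have hS := hstar {q | q ∈ H ∧ ∀ a ∈ N, q ∈ Aff hol M H a} p ⟨hpH, hpA⟩ (fun q hq => hq.1) ?_ ?_
  · intro a ha
    have hall : ∀ q ∈ H, ∃ m ∈ M, ∃ k, cond hol (a ^ m) k q := by
      intro q hq
      have h1 : q ∈ {q | q ∈ H ∧ ∀ a ∈ N, q ∈ Aff hol M H a} := by rw [hS]; exact hq
      exact (h1.2 a ha).2
    let n := Module.finrank ℝ H.direction
    let pt : Option (Fin n) → E := fun o => o.elim p₀ fun i =>
      p₀ + (Module.finBasis ℝ H.direction i : E)
    have hpt : ∀ o, pt o ∈ H := by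
      intro o
      cases o with
      | none => exact hp
      | some i =>
        have := AffineSubspace.vadd_mem_of_mem_direction (Module.finBasis ℝ H.direction i).2 hp
        rw [vadd_eq_add, add_comm] at this
        exact this
    obtain ⟨⟨m, k⟩, hmk⟩ := exists_unif (ι := M × ℕ)
      (fun i o => cond hol (a ^ (i.1 : ℕ)) i.2 (pt o)) (1, 0)
      (fun i j => ⟨(i.1 * j.1, max i.2 j.2), fun o => by
        rintro (h | h)
        · have := cond_pow hol h j.1 (le_max_left i.2 j.2)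
          rw [← pow_mul] at this
          exact this
        · have := cond_pow hol h i.1 (le_max_right i.2 j.2)
          rw [← pow_mul, mul_comm] at this
          exact this⟩)
      (fun o => by
        obtain ⟨m, hm, k, hk⟩ := hall (pt o) (hpt o)
        exact ⟨(⟨m, hm⟩, k), hk⟩)
    let A : AffineSubspace ℝ E :=
      { carrier := {q | cond hol (a ^ (m : ℕ)) k q}
        smul_vsub_vadd_mem' := fun c p q r hp hq hr => cond_aff hol c hp hq hr }
    have hHA : H ≤ A := le_of_basis hp (hmk none) fun i => hmk (some i)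
    exact ⟨m, m.2, k, fun q hq => hHA hq⟩
  · intro q hq s t hs ht hst
    refine ⟨?_, fun a ha => ?_⟩
    · exact H.convex hpH hq.1 hs ht hst
    · exact (Aff hol M H a).convex (hpA a ha) (hq.2 a ha) hs ht hst
  · rintro γ hγ q ⟨hq, hqA⟩
    refine ⟨hK γ hγ q hq, fun a ha => ⟨hK γ hγ q hq, ?_⟩⟩
    obtain ⟨m, hm, b, hb, hab⟩ := hnor γ⁻¹ (K.inv_mem hγ) a ha
    rw [inv_inv] at hab
    obtain ⟨-, m', hm', k, hk⟩ := hqA b hb
    refine ⟨m * m', M.mul_mem hm hm', k, ?_⟩
    have hbH := hinv b hb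
    have h1 : cond hol ((γ⁻¹ * a ^ m * γ) ^ m') k q :=
      cond_congr (pow_eq hab hbH m') (fun q hq => hinv _ (N.pow_mem hb m') q hq) hq hk
    have h2 := cond_conj (δ := γ) hol h1
    have h3 : γ * (γ⁻¹ * a ^ m * γ) ^ m' * γ⁻¹ = a ^ (m * m') := by
      have h4 : γ⁻¹ * a ^ m * γ = γ⁻¹ * a ^ m * (γ⁻¹)⁻¹ := by rw [inv_inv]
      rw [h4, conj_pow, pow_mul]
      group
    rwa [h3] at h2

end fin

end Pool.Agent.Y150.Ch
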