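import Pool.Agent.Y150.Ch.Alg

/-!
# Subgroups of the holonomy with bounded orbits
-/

set_option autoImplicit false

open Set Topology
open scoped Pointwise

namespace Pool.Agent.Y150.Ch

open Pool.Agent.W689.Mk (lin hol_add hol_sub hol_inv_apply hol_apply_inv lin_inv_apply lin_mul
  hol_cont)

variable {Γ E : Type} [Group Γ] [NormedAddCommGroup E] [NormedSpace ℝ E] [FiniteDimensional ℝ E]
  {hol : Γ →* (E ≃ᵃ[ℝ] E)}

/-- the orbit of `p` under `N` is bounded -/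
def Bdd (hol : Γ →* (E ≃ᵃ[ℝ] E)) (N : Subgroup Γ) (p : E) : Prop :=
  ∃ R : ℝ, ∀ a ∈ N, ‖hol a p‖ ≤ R

theorem hol_bound (γ : Γ) : ∃ A B : ℝ, 0 ≤ A ∧ 0 ≤ B ∧ ∀ p, ‖hol γ p‖ ≤ A + B * ‖p‖ := by
  let L : E →L[ℝ] E := LinearMap.toContinuousLinearMap (T hol γ)
  refine ⟨‖hol γ 0‖, ‖L‖, norm_nonneg _, norm_nonneg _, fun p => ?_⟩
  have h1 : hol γ p = hol γ 0 + L p := by
    have := hol_add (hol := hol) γ 0 p
    rwa [zero_add] at this
  rw [h1]
  exact (norm_add_le _ _).trans (by gcongr; exact L.le_opNorm p)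

theorem Bdd.hol_smul {N N' : Subgroup Γ} {p : E} {γ : Γ} (h : Bdd hol N p)
    (hc : ∀ a ∈ N', ∃ b ∈ N, hol (γ⁻¹ * a * γ) p = hol b p) : Bdd hol N' (hol γ p) := by
  obtain ⟨R, hR⟩ := h
  obtain ⟨A, B, hA, hB, hAB⟩ := hol_bound (hol := hol) γ
  refine ⟨A + B * R, fun a ha => ?_⟩
  obtain ⟨b, hb, hab⟩ := hc a ha
  have h1 : hol a (hol γ p) = hol γ (hol b p) := by
    rw [← hab, map_mul, map_mul]
    show hol a (hol γ p) = hol γ (hol γ⁻¹ (hol a (hol γ p)))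
    rw [hol_apply_inv]
  rw [h1]
  exact (hAB _).trans (by gcongr; exact hR b hb)

theorem Bdd.fin {N₁ N₂ : Subgroup Γ} {p : E} (h : Bdd hol N₁ p) (hi : N₁.relIndex N₂ ≠ 0) :
    Bdd hol N₂ p := by
  obtain ⟨R, hR⟩ := h
  have hfi : (N₁.subgroupOf N₂).FiniteIndex := ⟨hi⟩
  have : Finite (N₂ ⧸ N₁.subgroupOf N₂) := inferInstance
  have := Fintype.ofFinite (N₂ ⧸ N₁.subgroupOf N₂)
  choose A B hA hB hAB using fun γ : Γ => hol_bound (hol := hol) γ
  have hR0 : 0 ≤ R := (norm_nonneg _).trans (hR 1 N₁.one_mem)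
  refine ⟨∑ q : N₂ ⧸ N₁.subgroupOf N₂, (A q.out + B q.out * R), fun a ha => ?_⟩
  let q : N₂ ⧸ N₁.subgroupOf N₂ := QuotientGroup.mk ⟨a, ha⟩
  have h1 : (q.out)⁻¹ * ⟨a, ha⟩ ∈ N₁.subgroupOf N₂ := QuotientGroup.eq.1 (QuotientGroup.out_eq' q)
  have h2 : ((q.out : N₂) : Γ)⁻¹ * a ∈ N₁ := Subgroup.mem_subgroupOf.1 h1
  have h3 : hol a p = hol (q.out : N₂) (hol (((q.out : N₂) : Γ)⁻¹ * a) p) := by
    rw [map_mul]
    show _ = hol (q.out : N₂) (hol ((q.out : N₂) : Γ)⁻¹ (hol a p))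
    rw [hol_apply_inv]
  rw [h3]
  refine (hAB _ _).trans ?_
  have h4 : A (q.out : N₂) + B (q.out : N₂) * ‖hol (((q.out : N₂) : Γ)⁻¹ * a) p‖ ≤
      A (q.out : N₂) + B (q.out : N₂) * R := by
    have := hB (q.out : N₂)
    gcongr
    exact hR _ h2
  refine h4.trans ?_
  exact Finset.single_le_sum (f := fun q : N₂ ⧸ N₁.subgroupOf N₂ => A q.out + B q.out * R)
    (fun i _ => add_nonneg (hA _) (mul_nonneg (hB _) hR0)) (Finset.mem_univ q)

omit [FiniteDimensional ℝ E] in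
theorem hol_combo (γ : Γ) {s t : ℝ} (h : s + t = 1) (p q : E) :
    hol γ (s • p + t • q) = s • hol γ p + t • hol γ q := by
  have hs : s = 1 - t := by linarith
  have h1 : s • p + t • q = p + t • (q - p) := by rw [hs]; module
  have h2 : lin hol γ (t • (q - p)) = t • (hol γ q - hol γ p) := by
    show T hol γ (t • (q - p)) = _
    rw [map_smul, T_sub]
  rw [h1, hol_add, h2, hs]
  module

omit [FiniteDimensional ℝ E] in
theorem Bdd.convex {N : Subgroup Γ} : Convex ℝ {p | Bdd hol N p} := by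
  rintro p ⟨R, hR⟩ q ⟨R', hR'⟩ s t hs ht hst
  refine ⟨s * R + t * R', fun a ha => ?_⟩
  rw [hol_combo a hst]
  refine (norm_add_le _ _).trans ?_
  rw [norm_smul, norm_smul, Real.norm_of_nonneg hs, Real.norm_of_nonneg ht]
  have h1 := hR a ha
  have h2 := hR' a ha
  gcongr

/-- a group with bounded orbits has a fixed point -/
theorem exists_fixed {H : AffineSubspace ℝ E} {p₀ : E} (hp : p₀ ∈ H) {N : Subgroup Γ}
    (hinv : ∀ a ∈ N, ∀ q ∈ H, hol a q ∈ H) (hb : ∀ q ∈ H, Bdd hol N q) :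
    ∃ p ∈ H, ∀ a ∈ N, hol a p = p := by
  classical
  have hadd : ∀ v : H.direction, p₀ + v.1 ∈ H := fun v => by
    have := AffineSubspace.vadd_mem_of_mem_direction v.2 hp
    rwa [vadd_eq_add, add_comm] at this
  -- uniform bound on the linear parts
  obtain ⟨C, hC⟩ : ∃ C, ∀ a : N, ‖((LinearMap.toContinuousLinearMap (T hol a.1) : E →L[ℝ] E).comp
      H.direction.subtypeL)‖ ≤ C := by
    refine banach_steinhaus fun v => ?_
    obtain ⟨R, hR⟩ := hb _ (hadd v)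
    obtain ⟨R', hR'⟩ := hb _ hp
    refine ⟨R + R', fun a => ?_⟩
    have h1 : ((LinearMap.toContinuousLinearMap (T hol a.1) : E →L[ℝ] E).comp
      H.direction.subtypeL) v = hol a.1 (p₀ + v.1) - hol a.1 p₀ := by
      show T hol a.1 v.1 = _
      rw [← T_sub, add_sub_cancel_left]
    rw [h1]
    exact (norm_sub_le _ _).trans (add_le_add (hR _ a.2) (hR' _ a.2))
  have hC' : ∀ a ∈ N, ∀ v ∈ H.direction, ‖T hol a v‖ ≤ C * ‖v‖ := by
    intro a ha v hv
    have h1 := (((LinearMap.toContinuousLinearMap (T hol a) : E →L[ℝ] E).comp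
      H.direction.subtypeL)).le_of_opNorm_le (hC ⟨a, ha⟩) ⟨v, hv⟩
    exact h1
  have hC0 : 0 ≤ C := by
    refine le_trans ?_ (hC ⟨1, N.one_mem⟩)
    exact ContinuousLinearMap.opNorm_nonneg _
  -- the function
  let e := toEuclidean (E := E)
  let F : N → E → ℝ := fun a p => ‖e (hol a.1 p)‖ ^ 2
  let Φ : E → ℝ := fun p => ⨆ a : N, F a p
  have hbd : ∀ p ∈ H, BddAbove (range fun a : N => F a p) := by
    intro p hpH
    obtain ⟨R, hR⟩ := hb p hpH
    refine ⟨(‖(e : E →L[ℝ] EuclideanSpace ℝ (Fin (Module.finrank ℝ E)))‖ * R) ^ 2, ?_⟩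
    rintro _ ⟨a, rfl⟩
    show ‖e (hol a.1 p)‖ ^ 2 ≤ _
    have h1 : ‖e (hol a.1 p)‖ ≤ ‖(e : E →L[ℝ] EuclideanSpace ℝ (Fin (Module.finrank ℝ E)))‖ * R :=
      ((e : E →L[ℝ] EuclideanSpace ℝ (Fin (Module.finrank ℝ E))).le_opNorm _).trans
        (by gcongr; exact hR _ a.2)
    gcongr
  have hle : ∀ p ∈ H, ∀ a : N, F a p ≤ Φ p := fun p hpH a => le_ciSup (hbd p hpH) a
  have hΦinv : ∀ p ∈ H, ∀ a ∈ N, Φ (hol a p) = Φ p := by
    intro p hpH a ha
    show ⨆ b : N, F b (hol a p) = ⨆ b : N, F b p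
    rw [← Equiv.iSup_comp (Equiv.mulRight (⟨a, ha⟩ : N)) (g := fun b : N => F b p)]
    refine iSup_congr fun b => ?_
    show ‖e (hol b.1 (hol a p))‖ ^ 2 = ‖e (hol (b.1 * a) p)‖ ^ 2
    rw [map_mul]
    rfl
  -- the minimum
  have hK : IsCompact {p | p ∈ H ∧ ‖e p‖ ^ 2 ≤ Φ p₀} := by
    have h1 : IsCompact (e ⁻¹' Metric.closedBall 0 (Real.sqrt (Φ p₀))) := by
      have h2 : e ⁻¹' Metric.closedBall 0 (Real.sqrt (Φ p₀)) =
          e.symm '' Metric.closedBall 0 (Real.sqrt (Φ p₀)) := by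
        ext x
        constructor
        · intro hx
          exact ⟨e x, hx, e.symm_apply_apply x⟩
        · rintro ⟨y, hy, rfl⟩
          rw [mem_preimage, e.apply_symm_apply]
          exact hy
      rw [h2]
      exact (isCompact_closedBall _ _).image e.symm.continuous
    refine (h1.inter_left (AffineSubspace.closed_of_finiteDimensional H)).of_isClosed_subset ?_ ?_
    · refine (AffineSubspace.closed_of_finiteDimensional H).inter ?_
      exact isClosed_le (e.continuous.norm.pow 2) continuous_const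
    · rintro p ⟨hpH, hpe⟩
      refine ⟨hpH, ?_⟩
      show e p ∈ Metric.closedBall 0 _
      rw [mem_closedBall_zero_iff]
      exact Real.le_sqrt_of_sq_le hpe
  have h1F : ∀ p, F ⟨1, N.one_mem⟩ p = ‖e p‖ ^ 2 := by
    intro p
    show ‖e (hol 1 p)‖ ^ 2 = _
    rw [map_one]
    rfl
  have hp0K : p₀ ∈ {p | p ∈ H ∧ ‖e p‖ ^ 2 ≤ Φ p₀} :=
    ⟨hp, by rw [← h1F]; exact hle p₀ hp _⟩
  have hlsc : LowerSemicontinuousOn Φ {p | p ∈ H ∧ ‖e p‖ ^ 2 ≤ Φ p₀} := by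
    refine lowerSemicontinuousOn_ciSup (fun p hp' => hbd p hp'.1) fun a => ?_
    have hc : Continuous (F a) := by
      have h2 : Continuous fun p => hol a.1 p := hol_cont a.1
      exact (e.continuous.comp h2).norm.pow 2
    exact hc.lowerSemicontinuous.lowerSemicontinuousOn _
  obtain ⟨p, hpK, hpmin⟩ := hlsc.exists_isMinOn ⟨p₀, hp0K⟩ hK
  have hmin : ∀ q ∈ H, Φ p ≤ Φ q := by
    intro q hq
    by_cases h : ‖e q‖ ^ 2 ≤ Φ p₀
    · exact hpmin ⟨hq, h⟩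
    · have h2 := hpmin hp0K
      have h3 : Φ p ≤ Φ p₀ := h2
      have h4 := hle q hq ⟨1, N.one_mem⟩
      rw [h1F] at h4
      linarith [not_le.1 h]
  refine ⟨p, hpK.1, fun a ha => ?_⟩
  by_contra hne
  set q := hol a p with hq
  have hqH : q ∈ H := hinv a ha p hpK.1
  have hΦq : Φ q = Φ p := hΦinv p hpK.1 a ha
  have hpq : q - p ∈ H.direction := AffineSubspace.vsub_mem_direction hqH hpK.1
  have hpq0 : 0 < ‖q - p‖ := norm_pos_iff.2 (sub_ne_zero.2 hne)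
  let M : ℝ := ‖(e.symm : EuclideanSpace ℝ (Fin (Module.finrank ℝ E)) →L[ℝ] E)‖
  have hM : 0 ≤ M := norm_nonneg _
  have hlow : ∀ b ∈ N, ‖q - p‖ ≤ C * (M * ‖e (T hol b (q - p))‖) := by
    intro b hb
    have h2 : q - p = T hol b⁻¹ (T hol b (q - p)) := (lin_inv_apply (hol := hol) b (q - p)).symm
    have h3 := hC' b⁻¹ (N.inv_mem hb) _ (dir_T hp (hinv b hb) hpq)
    rw [← h2] at h3
    refine h3.trans ?_
    gcongr
    have h4 := (e.symm : EuclideanSpace ℝ (Fin (Module.finrank ℝ E)) →L[ℝ] E).le_opNorm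
      (e (T hol b (q - p)))
    have h5 : (e.symm : EuclideanSpace ℝ (Fin (Module.finrank ℝ E)) →L[ℝ] E)
      (e (T hol b (q - p))) = T hol b (q - p) := e.symm_apply_apply _
    rwa [h5] at h4
  have hCM : 0 < C * M := by
    have h2 := hlow 1 N.one_mem
    by_contra h
    have h3 : C * M = 0 := le_antisymm (not_lt.1 h) (mul_nonneg hC0 hM)
    rw [← mul_assoc, h3, zero_mul] at h2
    exact absurd h2 (not_le.2 hpq0)
  let c : ℝ := ‖q - p‖ / (C * M)
  have hc : 0 < c := div_pos hpq0 hCM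
  have hlow' : ∀ b ∈ N, c ≤ ‖e (T hol b (q - p))‖ := by
    intro b hb
    have h2 := hlow b hb
    rw [← mul_assoc] at h2
    exact (div_le_iff₀' hCM).2 h2
  let r : E := (1 / 2 : ℝ) • q + (1 / 2 : ℝ) • p
  have hrH : r ∈ H := H.convex hqH hpK.1 (by norm_num) (by norm_num) (by norm_num)
  have hr : Φ r ≤ Φ p - c ^ 2 / 4 := by
    refine ciSup_le fun b => ?_
    show ‖e (hol b.1 r)‖ ^ 2 ≤ _
    have h2 : e (hol b.1 r) = (1 / 2 : ℝ) • (e (hol b.1 q) + e (hol b.1 p)) := by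
      rw [hol_combo b.1 (by norm_num : (1 / 2 : ℝ) + 1 / 2 = 1), map_add, map_smul, map_smul,
        smul_add]
    have h3 := parallelogram_law_with_norm ℝ (e (hol b.1 q)) (e (hol b.1 p))
    have h4 : e (hol b.1 q) - e (hol b.1 p) = e (T hol b.1 (q - p)) := by
      rw [T_sub, map_sub]
    have h5 := hlow' b.1 b.2
    have h6 : F b q ≤ Φ p := (hle q hqH b).trans hΦq.le
    have h7 : F b p ≤ Φ p := hle p hpK.1 b
    have h6' : ‖e (hol b.1 q)‖ ^ 2 ≤ Φ p := h6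
    have h7' : ‖e (hol b.1 p)‖ ^ 2 ≤ Φ p := h7
    rw [h2, norm_smul, Real.norm_of_nonneg (by norm_num : (0 : ℝ) ≤ 1 / 2)]
    rw [h4] at h3
    have h8 : c ^ 2 ≤ ‖e (T hol b.1 (q - p))‖ ^ 2 := by gcongr
    nlinarith
  have h9 := hmin r hrH
  have h10 : 0 < c ^ 2 / 4 := by positivity
  linarith

/-- an almost normalised subgroup with a bounded orbit acts trivially -/
theorem bdd_normal {H : AffineSubspace ℝ E} {p₀ : E} (hp : p₀ ∈ H) {K N : Subgroup Γ}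
    (hK : ∀ γ ∈ K, ∀ q ∈ H, hol γ q ∈ H)
    (hstar : ∀ (S : Set E) (p : E), p ∈ S → S ⊆ H → StarConvex ℝ p S →
      (∀ γ ∈ K, ∀ q ∈ S, hol γ q ∈ S) → S = H)
    (hinv : ∀ a ∈ N, ∀ q ∈ H, hol a q ∈ H)
    (hnor : ∀ γ ∈ K, ∀ a ∈ N, ∃ b ∈ N, ∀ q ∈ H, hol (γ * a * γ⁻¹) q = hol b q)
    (hb : ∃ q ∈ H, Bdd hol N q) : ∀ a ∈ N, ∀ q ∈ H, hol a q = q := by
  obtain ⟨q₁, hq₁, hq₁b⟩ := hb
  have hS := hstar {q | q ∈ H ∧ Bdd hol N q} q₁ ⟨hq₁, hq₁b⟩ (fun q hq => hq.1)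
    ((H.convex.inter Bdd.convex).starConvex ⟨hq₁, hq₁b⟩) ?_
  · obtain ⟨p, hpH, hpf⟩ := exists_fixed hp hinv (fun q hq => by
      have h1 : q ∈ {q | q ∈ H ∧ Bdd hol N q} := by rw [hS]; exact hq
      exact h1.2)
    have hS' := hstar {q | q ∈ H ∧ ∀ a ∈ N, hol a q = q} p ⟨hpH, hpf⟩ (fun q hq => hq.1) ?_ ?_
    · intro a ha q hq
      have h1 : q ∈ {q | q ∈ H ∧ ∀ a ∈ N, hol a q = q} := by rw [hS']; exact hq
      exact h1.2 a ha
    · intro q hq s t hs ht hst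
      refine ⟨H.convex hpH hq.1 hs ht hst, fun a ha => ?_⟩
      rw [hol_combo a hst, hpf a ha, hq.2 a ha]
    · rintro γ hγ q ⟨hq, hqf⟩
      refine ⟨hK γ hγ q hq, fun a ha => ?_⟩
      obtain ⟨b, hb, hab⟩ := hnor γ⁻¹ (K.inv_mem hγ) a ha
      have h1 := hab q hq
      rw [hqf b hb, inv_inv, map_mul, map_mul] at h1
      have h2 : hol γ⁻¹ (hol a (hol γ q)) = q := h1
      rw [← hol_apply_inv (hol := hol) γ (hol a (hol γ q)), h2]
  · rintro γ hγ q ⟨hq, hqb⟩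
    refine ⟨hK γ hγ q hq, hqb.hol_smul fun a ha => ?_⟩
    obtain ⟨b, hb, hab⟩ := hnor γ⁻¹ (K.inv_mem hγ) a ha
    rw [inv_inv] at hab
    exact ⟨b, hb, hab q hq⟩

omit [FiniteDimensional ℝ E] in
theorem mem_conj {N : Subgroup Γ} {γ a : Γ} :
    a ∈ ConjAct.toConjAct γ • N ↔ γ⁻¹ * a * γ ∈ N := by
  rw [Subgroup.mem_pointwise_smul_iff_inv_smul_mem, ← map_inv, ConjAct.smul_def,
    ConjAct.ofConjAct_toConjAct, inv_inv]

/-- a commensurated subgroup with a bounded orbit acts by a finite group -/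
theorem bdd_comm {H : AffineSubspace ℝ E} {p₀ : E} (hp : p₀ ∈ H) {K N : Subgroup Γ}
    (hK : ∀ γ ∈ K, ∀ q ∈ H, hol γ q ∈ H)
    (hstar : ∀ (S : Set E) (p : E), p ∈ S → S ⊆ H → StarConvex ℝ p S →
      (∀ γ ∈ K, ∀ q ∈ S, hol γ q ∈ S) → S = H)
    (hinv : ∀ a ∈ N, ∀ q ∈ H, hol a q ∈ H)
    (hcom : K ≤ Subgroup.Commensurable.commensurator N)
    (hb : ∃ q ∈ H, Bdd hol N q) :
    ∃ L ≤ N, L.relIndex N ≠ 0 ∧ ∀ a ∈ L, ∀ q ∈ H, hol a q = q := by
  obtain ⟨q₁, hq₁, hq₁b⟩ := hb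
  have hS := hstar {q | q ∈ H ∧ Bdd hol N q} q₁ ⟨hq₁, hq₁b⟩ (fun q hq => hq.1)
    ((H.convex.inter Bdd.convex).starConvex ⟨hq₁, hq₁b⟩) ?_
  · have hfix : ∀ L ≤ N, ∃ p ∈ H, ∀ a ∈ L, hol a p = p := fun L hL =>
      exists_fixed hp (fun a ha => hinv a (hL ha)) (fun q hq => by
        have h1 : q ∈ {q | q ∈ H ∧ Bdd hol N q} := by rw [hS]; exact hq
        obtain ⟨R, hR⟩ := h1.2
        exact ⟨R, fun a ha => hR a (hL ha)⟩)
    obtain ⟨p, hpH, hpf⟩ := hfix N le_rfl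
    have hS' := hstar {q | q ∈ H ∧ ∃ L ≤ N, L.relIndex N ≠ 0 ∧ ∀ a ∈ L, hol a q = q} p
      ⟨hpH, N, le_rfl, by rw [Subgroup.relIndex_self]; exact one_ne_zero, hpf⟩
      (fun q hq => hq.1) ?_ ?_
    · have hall : ∀ q ∈ H, ∃ L ≤ N, L.relIndex N ≠ 0 ∧ ∀ a ∈ L, hol a q = q := by
        intro q hq
        have h1 : q ∈ {q | q ∈ H ∧ ∃ L ≤ N, L.relIndex N ≠ 0 ∧ ∀ a ∈ L, hol a q = q} := by
          rw [hS']; exact hq
        exact h1.2
      let n := Module.finrank ℝ H.direction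
      let pt : Option (Fin n) → E := fun o => o.elim p₀ fun i =>
        p₀ + (Module.finBasis ℝ H.direction i : E)
      have hpt : ∀ o, pt o ∈ H := by
        intro o
        cases o with
        | none => exact hp
        | some i =>
          have := AffineSubspace.vadd_mem_of_mem_direction (Module.finBasis ℝ H.direction i).2 hp
          rw [vadd_eq_add, add_comm] at this
          exact this
      obtain ⟨⟨L, hLN, hL⟩, hLf⟩ := exists_unif (ι := {L : Subgroup Γ // L ≤ N ∧ L.relIndex N ≠ 0})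
        (fun L o => ∀ a ∈ L.1, hol a (pt o) = pt o)
        ⟨N, le_rfl, by rw [Subgroup.relIndex_self]; exact one_ne_zero⟩
        (fun L L' => ⟨⟨L.1 ⊓ L'.1, inf_le_left.trans L.2.1,
          Subgroup.relIndex_inf_ne_zero L.2.2 L'.2.2⟩, fun o => by
            rintro (h | h)
            · exact fun a ha => h a ha.1
            · exact fun a ha => h a ha.2⟩)
        (fun o => by
          obtain ⟨L, h1, h2, h3⟩ := hall (pt o) (hpt o)
          exact ⟨⟨L, h1, h2⟩, h3⟩)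
      let A : AffineSubspace ℝ E :=
        { carrier := {q | ∀ a ∈ L, hol a q = q}
          smul_vsub_vadd_mem' := fun c p q r hp hq hr a ha => by
            have h1 := dp_aff hol a c p q r
            have h2 : ∀ x, hol a x = x → dp hol a x = 0 := fun x hx => by
              unfold dp; rw [hx, sub_self]
            rw [h2 p (hp a ha), h2 q (hq a ha), h2 r (hr a ha), sub_zero, smul_zero,
              add_zero] at h1
            exact sub_eq_zero.1 h1 }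
      have hHA : H ≤ A := le_of_basis hp (hLf none) fun i => hLf (some i)
      exact ⟨L, hLN, hL, fun a ha q hq => hHA hq a ha⟩
    · rintro q ⟨hq, L, hLN, hL, hLf⟩ s t hs ht hst
      refine ⟨H.convex hpH hq hs ht hst, L, hLN, hL, fun a ha => ?_⟩
      rw [hol_combo a hst, hpf a (hLN ha), hLf a ha]
    · rintro γ hγ q ⟨hq, L, hLN, hL, hLf⟩
      refine ⟨hK γ hγ q hq, (ConjAct.toConjAct γ • L) ⊓ N, inf_le_right, ?_, ?_⟩
      · rw [Subgroup.inf_relIndex_right]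
        have h1 : Subgroup.Commensurable L N := ⟨hL, by
          rw [Subgroup.relIndex_eq_one.2 hLN]; exact one_ne_zero⟩
        exact ((h1.conj (ConjAct.toConjAct γ)).trans (hcom hγ)).1
      · rintro a ⟨ha, -⟩
        have h1 := hLf _ (mem_conj.1 ha)
        rw [map_mul, map_mul] at h1
        have h2 : hol γ⁻¹ (hol a (hol γ q)) = q := h1
        rw [← hol_apply_inv (hol := hol) γ (hol a (hol γ q)), h2]
  · rintro γ hγ q ⟨hq, hqb⟩
    refine ⟨hK γ hγ q hq, ?_⟩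
    have h1 : Subgroup.Commensurable (ConjAct.toConjAct γ⁻¹ • N) N := hcom (K.inv_mem hγ)
    refine (hqb.fin h1.2).hol_smul fun a ha => ⟨γ⁻¹ * a * γ, ?_, rfl⟩
    rw [mem_conj, inv_inv]
    have h2 : γ * (γ⁻¹ * a * γ) * γ⁻¹ = a := by group
    rwa [h2]

end Pool.Agent.Y150.Ch
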