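import Pool.Agent.Y150.Ch.Fld

/-!
# Cyclic almost normal subgroups
-/

set_option autoImplicit false

open Set

namespace Pool.Agent.Y150.Ch

open Pool.Agent.W689.Ch Pool.Agent.TH845.Mk
open Pool.Agent.W689.Mk (lin hol_add hol_sub hol_inv_apply hol_apply_inv lin_inv_apply lin_mul
  hol_cont)

section alg
variable {Γ E : Type} [Group Γ] [NormedAddCommGroup E] [NormedSpace ℝ E]
  {hol : Γ →* (E ≃ᵃ[ℝ] E)}

theorem fix_of {γ : Γ} {w : E} (h : (T hol γ - 1) w = 0) : T hol γ w = w := by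
  rw [LinearMap.sub_apply] at h
  exact sub_eq_zero.1 h

theorem Lpow {γ : Γ} {s : ℕ} {p : E} (h : ((T hol γ - 1) ^ (s + 1)) (dp hol γ p) = 0) (n : ℕ) :
    ((T hol (γ ^ n) - 1) ^ s) (dp hol (γ ^ n) p) =
      ((n : ℝ) ^ (s + 1)) • ((T hol γ - 1) ^ s) (dp hol γ p) := by
  have hc := comm_sum (T hol γ) n
  rw [dp_pow, T_pow_sub, hc.mul_pow]
  set S := ∑ i ∈ Finset.range n, (T hol γ) ^ i with hS
  set N := T hol γ - 1 with hN
  set w := (N ^ s) (dp hol γ p) with hw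
  have hTw : T hol γ w = w := by
    apply fix_of
    rw [hw, ← Module.End.mul_apply, ← pow_succ']
    exact h
  have hTi : ∀ i : ℕ, ((T hol γ) ^ i) w = w := by
    intro i
    induction i with
    | zero => rfl
    | succ i ih => rw [pow_succ', Module.End.mul_apply, ih, hTw]
  have hSw : S w = (n : ℝ) • w := by
    rw [hS, LinearMap.sum_apply, Finset.sum_congr rfl fun i _ => hTi i, Finset.sum_const,
      Finset.card_range, ← Nat.cast_smul_eq_nsmul ℝ]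
  have hSk : ∀ k : ℕ, (S ^ k) w = ((n : ℝ) ^ k) • w := by
    intro k
    induction k with
    | zero => rw [pow_zero, pow_zero, one_smul]; rfl
    | succ k ih =>
      rw [pow_succ', Module.End.mul_apply, ih, map_smul, hSw, smul_smul, pow_succ]
  have h1 : N ^ s * S ^ s * S = S ^ (s + 1) * N ^ s := by
    have h2 : Commute (N ^ s) (S ^ s * S) :=
      ((hc.pow_left _).pow_right _).mul_right (hc.pow_left _)
    rw [mul_assoc, h2.eq, pow_succ]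
  have h3 := LinearMap.congr_fun h1 (dp hol γ p)
  have h4 : (S ^ (s + 1) * N ^ s) (dp hol γ p) = (S ^ (s + 1)) w := rfl
  rw [h4, hSk] at h3
  exact h3

theorem Linv {γ : Γ} (k : ℕ) (p : E) :
    ((T hol γ⁻¹ - 1) ^ k) (dp hol γ⁻¹ p) =
      ((-1 : ℝ) ^ (k + 1)) • ((T hol γ⁻¹) ^ (k + 1)) (((T hol γ - 1) ^ k) (dp hol γ p)) := by
  have h1 : dp hol γ⁻¹ p = - T hol γ⁻¹ (dp hol γ p) := by
    unfold dp
    rw [T_sub, hol_inv_apply]
    abel
  have h2 : T hol γ⁻¹ - 1 = (-1 : ℝ) • (T hol γ⁻¹ * (T hol γ - 1)) := by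
    rw [mul_sub, mul_one, ← map_mul, inv_mul_cancel, map_one, neg_one_smul, neg_sub]
  have hc : Commute (T hol γ⁻¹) (T hol γ - 1) := by
    refine Commute.sub_right ?_ (Commute.one_right _)
    show T hol γ⁻¹ * T hol γ = T hol γ * T hol γ⁻¹
    rw [← map_mul, ← map_mul, inv_mul_cancel, mul_inv_cancel]
  rw [h1, h2, smul_pow, hc.mul_pow, LinearMap.smul_apply, map_neg]
  have h3 : (T hol γ⁻¹ ^ k * (T hol γ - 1) ^ k) (T hol γ⁻¹ (dp hol γ p)) =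
      ((T hol γ⁻¹) ^ (k + 1)) (((T hol γ - 1) ^ k) (dp hol γ p)) := by
    have h4 : T hol γ⁻¹ ^ k * (T hol γ - 1) ^ k * T hol γ⁻¹ =
        (T hol γ⁻¹) ^ (k + 1) * (T hol γ - 1) ^ k := by
      rw [mul_assoc, (hc.symm.pow_left k).eq, ← mul_assoc, ← pow_succ]
    exact LinearMap.congr_fun h4 _
  rw [h3, pow_succ (-1 : ℝ), mul_neg_one, neg_smul, smul_neg]

theorem Lzpow {γ : Γ} {s : ℕ} {p : E} (h : ((T hol γ - 1) ^ (s + 1)) (dp hol γ p) = 0) (l : ℤ) :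
    ((T hol (γ ^ l) - 1) ^ s) (dp hol (γ ^ l) p) =
      ((l : ℝ) ^ (s + 1)) • ((T hol γ - 1) ^ s) (dp hol γ p) := by
  obtain ⟨n, rfl | rfl⟩ := Int.eq_nat_or_neg l
  · rw [zpow_natCast, Lpow h, Int.cast_natCast]
  · have h1 : ((T hol γ⁻¹ - 1) ^ (s + 1)) (dp hol γ⁻¹ p) = 0 := by
      rw [Linv, h, map_zero, smul_zero]
    have h2 : γ ^ (-(n : ℤ)) = (γ⁻¹) ^ n := by rw [zpow_neg, zpow_natCast, inv_pow]
    rw [h2, Lpow h1, Linv]
    set w := ((T hol γ - 1) ^ s) (dp hol γ p) with hw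
    have hTw : T hol γ w = w := by
      apply fix_of
      rw [hw, ← Module.End.mul_apply, ← pow_succ']
      exact h
    have hTw' : T hol γ⁻¹ w = w := by
      have h3 : T hol γ⁻¹ (T hol γ w) = w := lin_inv_apply (hol := hol) γ w
      rwa [hTw] at h3
    have hTi : ∀ i : ℕ, ((T hol γ⁻¹) ^ i) w = w := by
      intro i
      induction i with
      | zero => rfl
      | succ i ih => rw [pow_succ', Module.End.mul_apply, ih, hTw']
    rw [hTi, smul_smul, ← mul_pow]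
    congr 2
    push_cast
    ring

theorem inv_eq {H : AffineSubspace ℝ E} {a b : Γ} (h : ∀ q ∈ H, hol a q = hol b q)
    (hb : ∀ q ∈ H, hol b⁻¹ q ∈ H) : ∀ q ∈ H, hol a⁻¹ q = hol b⁻¹ q := by
  intro q hq
  have h1 : q = hol a (hol b⁻¹ q) := by rw [h _ (hb q hq), hol_apply_inv]
  calc hol a⁻¹ q = hol a⁻¹ (hol a (hol b⁻¹ q)) := by rw [← h1]
    _ = hol b⁻¹ q := hol_inv_apply _ _

theorem zpow_eq {H : AffineSubspace ℝ E} {a b : Γ} (h : ∀ q ∈ H, hol a q = hol b q)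
    {G : Subgroup Γ} (hG : ∀ γ ∈ G, ∀ q ∈ H, hol γ q ∈ H) (hb : b ∈ G) (l : ℤ) :
    ∀ q ∈ H, hol (a ^ l) q = hol (b ^ l) q := by
  obtain ⟨n, rfl | rfl⟩ := Int.eq_nat_or_neg l
  · simp only [zpow_natCast]
    exact pow_eq h (hG b hb) n
  · simp only [zpow_neg, zpow_natCast]
    exact inv_eq (pow_eq h (hG b hb) n) (hG _ (G.inv_mem (G.pow_mem hb n)))

/-- the positive numbers -/
def Pos : Submonoid ℕ where
  carrier := {n | n ≠ 0}
  one_mem' := one_ne_zero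
  mul_mem' := mul_ne_zero

end alg

variable {X Γ E : Type} [TopologicalSpace X] [T2Space X] [Group Γ] [MulAction Γ X]
  [NormedAddCommGroup E] [NormedSpace ℝ E] [FiniteDimensional ℝ E]
  {dev : X → E} {hol : Γ →* (E ≃ᵃ[ℝ] E)} {G : Subgroup Γ} {H : AffineSubspace ℝ E} {x₀ : X}

/-- a cyclic almost normal subgroup acts by a finite group -/
theorem cyc (D : AffMfd X Γ E dev hol) (m : Min dev hol G H x₀) {K : Subgroup Γ} (hKG : K ≤ G)
    (hK : K.FiniteIndex) {a : Γ} (ha : a ∈ G)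
    (hnor : ∀ γ ∈ K, ∃ n : ℕ, n ≠ 0 ∧ ∃ l : ℤ, ∀ q ∈ H, hol (γ * a ^ n * γ⁻¹) q = hol (a ^ l) q) :
    ∃ n : ℕ, n ≠ 0 ∧ ∀ q ∈ H, hol (a ^ n) q = q := by
  classical
  have hNG : Subgroup.zpowers a ≤ G := Subgroup.zpowers_le.2 ha
  have hGH : ∀ γ ∈ G, ∀ q ∈ H, hol γ q ∈ H := m.inv
  obtain ⟨n₀, hn₀, k₀, hk₀⟩ := unip m.mem (K := K) (N := Subgroup.zpowers a)
    (fun γ hγ => m.inv γ (hKG hγ)) (m.star K hKG hK) (fun b hb => m.inv b (hNG hb))
    (by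
      rintro _ ⟨i, rfl⟩ _ ⟨j, rfl⟩ q _
      have h1 : ∀ u v : Γ, hol u (hol v q) = hol (u * v) q := fun u v => by rw [map_mul]; rfl
      show hol (a ^ i) (hol (a ^ j) q) = hol (a ^ j) (hol (a ^ i) q)
      rw [h1, h1, ← zpow_add, ← zpow_add, add_comm])
    Pos (by
      rintro γ hγ _ ⟨j, rfl⟩
      obtain ⟨n, hn, l, hl⟩ := hnor γ hγ
      refine ⟨n, hn, (a ^ l) ^ j, Subgroup.zpow_mem _ (Subgroup.mem_zpowers_iff.2 ⟨l, rfl⟩) j, ?_⟩
      have h1 : γ * (a ^ j) ^ n * γ⁻¹ = (γ * a ^ n * γ⁻¹) ^ j := by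
        rw [conj_zpow, ← zpow_natCast (a ^ j) n, ← zpow_natCast a n, ← zpow_mul, ← zpow_mul,
          mul_comm]
      intro q hq
      show hol (γ * (a ^ j) ^ n * γ⁻¹) q = _
      rw [h1]
      exact zpow_eq hl hGH (G.zpow_mem ha l) j q hq) a (Subgroup.mem_zpowers a)
  refine ⟨n₀, hn₀, ?_⟩
  by_contra hcon
  push Not at hcon
  obtain ⟨q₁, hq₁, hq₁n⟩ := hcon
  set g := a ^ n₀ with hg
  have hgG : g ∈ G := G.pow_mem ha n₀
  have hex : ∃ k : ℕ, ∀ p ∈ H, ((T hol g - 1) ^ k) (dp hol g p) = 0 := ⟨k₀, hk₀⟩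
  have hr := Nat.find_spec hex
  have hmin : ∀ k < Nat.find hex, ¬ ∀ p ∈ H, ((T hol g - 1) ^ k) (dp hol g p) = 0 :=
    fun k hk => Nat.find_min hex hk
  obtain ⟨s, hs⟩ : ∃ s, Nat.find hex = s + 1 := by
    refine Nat.exists_eq_succ_of_ne_zero fun h0 => hq₁n ?_
    rw [h0] at hr
    have h1 := hr q₁ hq₁
    exact sub_eq_zero.1 h1
  rw [hs] at hr hmin
  have h2 := hmin s (Nat.lt_succ_self s)
  push Not at h2
  obtain ⟨p₁, hp₁, hp₁n⟩ := h2
  let Y : E →ᵃ[ℝ] E := (((T hol g - 1) ^ s : Module.End ℝ E).toAffineMap).comp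
    ((hol g : E →ᵃ[ℝ] E) - AffineMap.id ℝ E)
  have hY : ∀ p, Y p = ((T hol g - 1) ^ s) (dp hol g p) := fun p => rfl
  refine hp₁n ?_
  rw [← hY]
  refine semi_zero D m hKG hK Y (fun p hp => ?_) (fun γ hγ => ?_) p₁ hp₁
  · rw [hY]
    exact N_mem hp (m.inv g hgG) s (dp_mem (m.inv g hgG) hp)
  · obtain ⟨n, hn, l, hl⟩ := hnor γ hγ
    have key : ∀ p ∈ H, ((n : ℝ) ^ (s + 1)) • T hol γ (Y p) = ((l : ℝ) ^ (s + 1)) • Y (hol γ p) := by
      intro p hp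
      have hγp := m.inv γ (hKG hγ) p hp
      have h3 := Lk_conj hol γ (g ^ n) s p
      rw [Lpow (hr p hp), map_smul] at h3
      rw [hY, hY, ← h3, ← Lzpow (hr _ hγp) l]
      refine Lk_congr (H := H) ?_ (m.inv _ (G.zpow_mem hgG l)) s hγp
      intro q hq
      have h4 : γ * g ^ n * γ⁻¹ = (γ * a ^ n * γ⁻¹) ^ n₀ := by
        rw [conj_pow, hg, ← pow_mul, ← pow_mul, mul_comm]
      have h5 : g ^ l = (a ^ l) ^ n₀ := by
        rw [hg, ← zpow_natCast a n₀, ← zpow_natCast (a ^ l) n₀, ← zpow_mul, ← zpow_mul, mul_comm]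
      rw [h4, h5]
      exact pow_eq hl (m.inv _ (G.zpow_mem ha l)) n₀ q hq
    have hnr : ((n : ℝ) ^ (s + 1)) ≠ 0 := pow_ne_zero _ (Nat.cast_ne_zero.2 hn)
    refine ⟨((n : ℝ) ^ (s + 1))⁻¹ * (l : ℝ) ^ (s + 1), ?_, fun p hp => ?_⟩
    · intro h0
      have h6 : ((l : ℝ) ^ (s + 1)) = 0 := (mul_eq_zero.1 h0).resolve_left (inv_ne_zero hnr)
      have h7 := key p₁ hp₁
      rw [h6, zero_smul] at h7
      have h8 := (smul_eq_zero.1 h7).resolve_left hnr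
      have h9 : T hol γ⁻¹ (T hol γ (Y p₁)) = Y p₁ := lin_inv_apply (hol := hol) γ _
      rw [h8, map_zero] at h9
      exact hp₁n (by rw [← hY, ← h9])
    · show T hol γ (Y p) = _
      rw [mul_smul, ← key p hp, smul_smul, inv_mul_cancel₀ hnr, one_smul]

end Pool.Agent.Y150.Ch
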