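import Pool.Agent.Y150.Ch.Cyc

/-!
# Unbounded subgroups move measures to infinity; convex sets of affine fields
-/

set_option autoImplicit false

open Set Filter Topology MeasureTheory

namespace Pool.Agent.Y150.Ch

open Pool.Agent.W689.Ch Pool.Agent.TH845.Mk
open Pool.Agent.W689.Mk (lin hol_add hol_sub hol_inv_apply hol_apply_inv lin_inv_apply lin_mul
  hol_cont)

section alg
variable {Γ E : Type} [Group Γ] [NormedAddCommGroup E] [NormedSpace ℝ E] [FiniteDimensional ℝ E]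
  {hol : Γ →* (E ≃ᵃ[ℝ] E)} [MeasurableSpace E] [BorelSpace E]

/-- a subgroup without bounded orbits moves measures to infinity -/
theorem esc {H : AffineSubspace ℝ E} {p₀ : E} (hp : p₀ ∈ H) {N : Subgroup Γ}
    (hinv : ∀ a ∈ N, ∀ q ∈ H, hol a q ∈ H) (hno : ¬ ∃ q ∈ H, Bdd hol N q) (μ : Measure E)
    [SFinite μ] (hμ : μ (H : Set E)ᶜ = 0) :
    ∃ g : ℕ → Γ, (∀ k, g k ∈ N) ∧ ∀ᵐ p ∂μ, Tendsto (fun k => ‖hol (g k) p‖) atTop atTop := by
  have hinv' : ∀ a : N, ∀ q ∈ H, (hol.comp N.subtype) a q ∈ H := fun a q hq => hinv a.1 a.2 q hq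
  obtain ⟨S, hS⟩ := H.direction.exists_isCompl
  let P : E →ₗ[ℝ] H.direction := Submodule.projectionOnto H.direction S hS
  have hPid : ∀ v (hv : v ∈ H.direction), P v = ⟨v, hv⟩ := fun v hv =>
    Submodule.projectionOnto_apply_left hS ⟨v, hv⟩
  have hPc : Continuous P := P.continuous_of_finiteDimensional
  let π : E → H.direction := fun q => P (q - p₀)
  have hπ : Measurable π := (hPc.comp (continuous_id.sub continuous_const)).measurable
  obtain ⟨g, hg⟩ := escape (subHol hp hinv') (fun K hK1 hK2 hK3 hK4 => by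
    obtain ⟨v, hv⟩ := hK1
    apply hno
    obtain ⟨R, hR⟩ := hK2.isBounded.exists_norm_le
    refine ⟨p₀ + v.1, add_mem_H hp v, ‖p₀‖ + R, fun a ha => ?_⟩
    have h1 := hR _ (hK4 ⟨a, ha⟩ v hv)
    have h2 : hol a (p₀ + v.1) = p₀ + (subHol hp hinv' ⟨a, ha⟩ v : H.direction).1 := by
      rw [subHol_apply, add_sub_cancel]
      rfl
    rw [h2]
    exact (norm_add_le _ _).trans (by gcongr; exact h1)) (μ.map π)
  refine ⟨fun k => (g k).1, fun k => (g k).2, ?_⟩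
  have h1 := ae_of_ae_map hπ.aemeasurable hg
  have h2 : ∀ᵐ p ∂μ, p ∈ (H : Set E) := by
    rw [ae_iff]
    exact hμ
  filter_upwards [h1, h2] with p hp1 hp2
  have h3 : ∀ k, (subHol hp hinv' (g k) (π p) : H.direction).1 = hol (g k).1 p - p₀ := by
    intro k
    rw [subHol_apply]
    have h4 : (π p : H.direction) = ⟨p - p₀, sub_mem_dir hp hp2⟩ := hPid _ _
    rw [h4]
    show hol (g k).1 (p₀ + (p - p₀)) - p₀ = _
    rw [add_sub_cancel]
  refine tendsto_atTop_mono (fun k => ?_) (tendsto_atTop_add_const_right _ (-‖p₀‖) hp1)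
  have h5 : ‖(subHol hp hinv' (g k) (π p) : H.direction)‖ = ‖hol (g k).1 p - p₀‖ := by
    rw [← h3]; rfl
  rw [h5]
  have h6 := norm_sub_le (hol (g k).1 p) p₀
  linarith

end alg

variable {X Γ E : Type} [TopologicalSpace X] [T2Space X] [Group Γ] [MulAction Γ X]
  [NormedAddCommGroup E] [NormedSpace ℝ E] [FiniteDimensional ℝ E]
  {dev : X → E} {hol : Γ →* (E ≃ᵃ[ℝ] E)} {G : Subgroup Γ} {H : AffineSubspace ℝ E} {x₀ : X}

/-- an invariant convex set of affine vector fields contains a field with a zero -/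
theorem zero_field (D : AffMfd X Γ E dev hol) (m : Min dev hol G H x₀) {K : Subgroup Γ}
    (hKG : K ≤ G) (hK : K.FiniteIndex) {C : Set (E →ᵃ[ℝ] E)} (hC : Convex ℝ C)
    (hCH : ∀ Y ∈ C, ∀ p ∈ H, Y p ∈ H.direction) (hne : C.Nonempty)
    (hinv : ∀ γ ∈ K, ∀ Y ∈ C, ∃ Y' ∈ C, ∀ p ∈ H, lin hol γ (Y p) = Y' (hol γ p)) :
    ∃ Y ∈ C, ∃ x, dev x ∈ H ∧ Y (dev x) = 0 := by
  classical
  by_contra hcon
  push Not at hcon
  obtain ⟨Y₀, hY₀⟩ := hne
  have D' := restr D K hK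
  obtain ⟨ρ, hρ⟩ := exists_wt D'
  -- the translates of the field `Y₀`
  choose P hPC hP using fun γ : K => hinv γ.1⁻¹ (K.inv_mem γ.2) Y₀ hY₀
  have hinvK : ∀ γ : K, ∀ q ∈ H, hol γ.1 q ∈ H := fun γ q hq => m.inv γ.1 (hKG γ.2) q hq
  have hinvK' : ∀ γ : K, ∀ q ∈ H, hol γ.1⁻¹ q ∈ H := fun γ q hq =>
    m.inv _ (G.inv_mem (hKG γ.2)) q hq
  -- value of the translates
  have hPv : ∀ γ : K, ∀ p ∈ H, P γ p = lin hol γ.1⁻¹ (Y₀ (hol γ.1 p)) := by
    intro γ p hp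
    rw [hP γ _ (hinvK γ p hp), hol_inv_apply]
  let Z : X → E := fun x => ∑' γ : K, ρ (γ • x) • P γ (dev x)
  have hloc : ∀ x, ∃ U ∈ 𝓝 x, ∃ F : Finset K, ∀ γ : K, γ ∉ F → ∀ y ∈ U,
      ρ (γ • y) • P γ (dev y) = 0 := by
    intro x
    obtain ⟨U, hU, F, hF⟩ := hρ.locfin x
    exact ⟨U, hU, F, fun γ hγ y hy => by rw [hF γ hγ y hy, zero_smul]⟩
  refine m.fld K hKG hK ⟨Z, ?_, ?_, ?_⟩
  · refine Continuous.continuousOn (cont_tsum (fun γ => ?_) hloc)
    exact (hρ.cont.comp (D'.cont γ)).smul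
      (((P γ).continuous_of_finiteDimensional).comp D.loc.continuous)
  · intro x hxH
    obtain ⟨U, hU, F, hF⟩ := hρ.locfin x
    have hx := mem_of_mem_nhds hU
    have h1 : Z x = ∑ γ ∈ F, ρ (γ • x) • P γ (dev x) :=
      tsum_eq_sum fun γ hγ => by rw [hF γ hγ x hx, zero_smul]
    have h2 : ∑ γ ∈ F, ρ (γ • x) = 1 := by
      rw [← hρ.sum x]
      exact (tsum_eq_sum fun γ hγ => hF γ hγ x hx).symm
    let Y : E →ᵃ[ℝ] E := ∑ γ ∈ F, ρ (γ • x) • P γ
    have hYC : Y ∈ C := hC.sum_mem (fun γ _ => hρ.nonneg _) h2 fun γ _ => hPC γ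
    have h3 : Y (dev x) = Z x := by
      rw [h1]
      have h4 : ∀ F : Finset K, (∑ γ ∈ F, ρ (γ • x) • P γ : E →ᵃ[ℝ] E) (dev x) =
          ∑ γ ∈ F, ρ (γ • x) • P γ (dev x) := by
        intro F
        induction F using Finset.induction with
        | empty => simp
        | insert a F ha ih =>
          rw [Finset.sum_insert ha, Finset.sum_insert ha, AffineMap.coe_add, Pi.add_apply, ih]
          rfl
      exact h4 F
    refine ⟨?_, ?_⟩
    · rw [← h3]; exact hCH Y hYC _ hxH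
    · rw [← h3]; exact hcon Y hYC x hxH
  · intro δ x hxH
    have hδx : dev (δ • x) = hol δ.1 (dev x) := D.equi δ.1 x
    show ∑' γ : K, ρ (γ • δ • x) • P γ (dev (δ • x)) = lin hol δ.1 (Z x)
    obtain ⟨U, hU, F, hF⟩ := hρ.locfin x
    have hx := mem_of_mem_nhds hU
    have h1 : Z x = ∑ γ ∈ F, ρ (γ • x) • P γ (dev x) :=
      tsum_eq_sum fun γ hγ => by rw [hF γ hγ x hx, zero_smul]
    rw [h1]
    have h2 : lin hol δ.1 (∑ γ ∈ F, ρ (γ • x) • P γ (dev x)) =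
        ∑ γ ∈ F, ρ (γ • x) • lin hol δ.1 (P γ (dev x)) := by
      show T hol δ.1 _ = _
      rw [map_sum]
      exact Finset.sum_congr rfl fun γ _ => map_smul _ _ _
    rw [h2, ← Equiv.tsum_eq (Equiv.mulRight δ⁻¹) (fun γ : K => ρ (γ • δ • x) • P γ (dev (δ • x)))]
    have h3 : ∀ γ : K, ρ ((γ * δ⁻¹) • δ • x) • P (γ * δ⁻¹) (dev (δ • x)) =
        ρ (γ • x) • lin hol δ.1 (P γ (dev x)) := by
      intro γ
      rw [smul_smul, inv_mul_cancel_right, hPv _ _ hxH, hδx, hPv _ _ (hinvK δ _ hxH)]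
      congr 1
      have h4 : hol (γ * δ⁻¹ : K).1 (hol δ.1 (dev x)) = hol γ.1 (dev x) := by
        show hol (γ.1 * δ.1⁻¹) (hol δ.1 (dev x)) = _
        rw [map_mul]
        show hol γ.1 (hol δ.1⁻¹ (hol δ.1 (dev x))) = _
        rw [hol_inv_apply]
      rw [h4, ← lin_mul]
      congr 2
      show (γ.1 * δ.1⁻¹)⁻¹ = δ.1 * γ.1⁻¹
      rw [mul_inv_rev, inv_inv]
    have h5 : ∑' γ : K, ρ (γ • x) • lin hol δ.1 (P γ (dev x)) =
        ∑ γ ∈ F, ρ (γ • x) • lin hol δ.1 (P γ (dev x)) :=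
      tsum_eq_sum fun γ hγ => by rw [hF γ hγ x hx, zero_smul]
    rw [← h5]
    exact tsum_congr h3

end Pool.Agent.Y150.Ch
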