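import Pool.Agent.TH845.Mk.Fin

/-!
# Finite coverings of closed affine manifolds, and a minimal invariant affine subspace
-/

set_option autoImplicit false

open Set Filter Topology Metric

namespace Pool.Agent.Y150.Ch

open Pool.Agent.W689.Ch Pool.Agent.W689.Mk Pool.Agent.TH845.Mk

variable {X Γ E : Type} [TopologicalSpace X] [T2Space X] [Group Γ] [MulAction Γ X]
  [NormedAddCommGroup E] [NormedSpace ℝ E] [FiniteDimensional ℝ E]
  {dev : X → E} {hol : Γ →* (E ≃ᵃ[ℝ] E)}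

omit [T2Space X] [FiniteDimensional ℝ E] in
/-- the finite covering given by a subgroup of finite index -/
theorem restr (D : AffMfd X Γ E dev hol) (K : Subgroup Γ) (hK : K.FiniteIndex) :
    AffMfd X K E dev (hol.comp K.subtype) := by
  refine ⟨D.loc, fun γ => D.cont γ, fun γ x => D.equi γ x, fun C hC => ?_, ?_⟩
  · refine ((D.pd C hC).preimage (f := ((↑) : K → Γ)) Subtype.val_injective.injOn).subset ?_
    rintro γ ⟨x, hx, hγ⟩
    exact ⟨x, hx, hγ⟩
  · obtain ⟨C, hC, hcov⟩ := D.cc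
    have : Finite (Γ ⧸ K) := inferInstance
    refine ⟨⋃ q : Γ ⧸ K, (fun x => (q.out)⁻¹ • x) '' C, ?_, fun x => ?_⟩
    · exact isCompact_iUnion fun q => hC.image (D.cont _)
    · obtain ⟨γ, c, hc, rfl⟩ := hcov x
      let q : Γ ⧸ K := QuotientGroup.mk γ⁻¹
      have h1 : (q.out)⁻¹ * γ⁻¹ ∈ K := QuotientGroup.eq.1 (QuotientGroup.out_eq' q)
      refine ⟨⟨(q.out)⁻¹ * γ⁻¹, h1⟩⁻¹, (q.out)⁻¹ • c, mem_iUnion.2 ⟨q, c, hc, rfl⟩, ?_⟩
      show ((q.out)⁻¹ * γ⁻¹)⁻¹ • (q.out)⁻¹ • c = γ • c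
      rw [smul_smul]
      congr 1
      group

/-- the affine hull of the centres of `S` -/
noncomputable def drp (H : AffineSubspace ℝ E) (p₀ : E) (S : Set E) : AffineSubspace ℝ E :=
  (affineSpan ℝ (Ker {v : H.direction | p₀ + v.1 ∈ S})).map
    ((AffineMap.const ℝ H.direction p₀ : H.direction →ᵃ[ℝ] E) + H.direction.subtype.toAffineMap)

/-- from a field on the submanifold to a field on the preimage -/
theorem fld_of_sub (D : AffMfd X Γ E dev hol) {H : AffineSubspace ℝ E} {p₀ : E} (hp : p₀ ∈ H)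
    (hinv : ∀ (γ : Γ), ∀ q ∈ H, hol γ q ∈ H)
    (h : letI := subAct D hinv
      ∃ Z : {x : X // dev x ∈ H} → H.direction, Continuous Z ∧
        (∀ (γ : Γ) x, Z (γ • x) = lin (subHol hp hinv) γ (Z x)) ∧ ∀ x, Z x ≠ 0) :
    Fld dev hol H := by
  letI := subAct D hinv
  obtain ⟨Z, hZ1, hZ2, hZ3⟩ := h
  classical
  refine ⟨fun x => if h : dev x ∈ H then (Z ⟨x, h⟩ : E) else 0, ?_, ?_, ?_⟩
  · rw [continuousOn_iff_continuous_restrict]
    refine Continuous.congr (continuous_subtype_val.comp hZ1) fun x => ?_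
    have hxH : dev x.1 ∈ H := x.2
    show (Z x : E) = if h : dev x.1 ∈ H then (Z ⟨x.1, h⟩ : E) else 0
    rw [dif_pos hxH]
    rfl
  · intro x hx
    beta_reduce
    rw [dif_pos hx]
    exact ⟨(Z ⟨x, hx⟩).2, fun h => hZ3 ⟨x, hx⟩ (Subtype.ext h)⟩
  · intro γ x hx
    have hγx : dev (γ • x) ∈ H := by rw [D.equi]; exact hinv γ _ hx
    beta_reduce
    rw [dif_pos hx, dif_pos hγx]
    exact congrArg Subtype.val (hZ2 γ ⟨x, hx⟩)

/-- a proper invariant star-shaped set gives a smaller invariant subspace without fields -/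
theorem drop (D : AffMfd X Γ E dev hol) {H : AffineSubspace ℝ E} {x₀ : X} (hx₀ : dev x₀ ∈ H)
    (hinv : ∀ (γ : Γ), ∀ q ∈ H, hol γ q ∈ H) (hHno : ¬ Fld dev hol H) {S : Set E} {p : E}
    (hpS : p ∈ S) (hSH : S ⊆ H) (hs : StarConvex ℝ p S) (hSinv : ∀ (γ : Γ), ∀ q ∈ S, hol γ q ∈ S)
    (hne : S ≠ H) :
    Module.finrank ℝ (drp H (dev x₀) S).direction < Module.finrank ℝ H.direction ∧
      (∀ (γ : Γ), ∀ q ∈ drp H (dev x₀) S, hol γ q ∈ drp H (dev x₀) S) ∧
      (∃ x, dev x ∈ drp H (dev x₀) S) ∧ ¬ Fld dev hol (drp H (dev x₀) S) := by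
  classical
  set p₀ := dev x₀ with hp₀
  letI := subAct D hinv
  have D' := subMfd D hx₀ hinv
  have hXH : Nonempty {x : X // dev x ∈ H} := ⟨⟨x₀, hx₀⟩⟩
  have hno' : ¬ ∃ Z : {x : X // dev x ∈ H} → H.direction, Continuous Z ∧
      (∀ (γ : Γ) x, Z (γ • x) = lin (subHol hx₀ hinv) γ (Z x)) ∧ ∀ x, Z x ≠ 0 :=
    fun h => hHno (fld_of_sub D hx₀ hinv h)
  let S' : Set H.direction := {v | p₀ + v.1 ∈ S}
  have hpS' : (⟨p - p₀, sub_mem_dir hx₀ (hSH hpS)⟩ : H.direction) ∈ S' := by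
    show p₀ + (p - p₀) ∈ S
    rwa [add_sub_cancel]
  have hs' : StarConvex ℝ (⟨p - p₀, sub_mem_dir hx₀ (hSH hpS)⟩ : H.direction) S' := by
    intro v hv b c hb hc hbc
    have h2 := hs hv hb hc hbc
    have h3 : b • p + c • (p₀ + v.1) = p₀ + (b • (p - p₀) + c • v.1) := by
      have : b = 1 - c := by linarith
      rw [this]; module
    rw [h3] at h2
    exact h2
  have hSinv' : ∀ (γ : Γ), ∀ v ∈ S', subHol hx₀ hinv γ v ∈ S' := by
    intro γ v hv
    show p₀ + (hol γ (p₀ + v.1) - p₀) ∈ S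
    rw [add_sub_cancel]
    exact hSinv γ _ hv
  have hne' : S' ≠ univ := by
    intro h1
    apply hne
    refine Subset.antisymm hSH fun q hq => ?_
    have h2 : (⟨q - p₀, sub_mem_dir hx₀ hq⟩ : H.direction) ∈ S' := by rw [h1]; trivial
    have h3 : p₀ + (q - p₀) ∈ S := h2
    rwa [add_sub_cancel] at h3
  obtain ⟨-, ⟨x₂, hx₂⟩, hspan, hspi, hfld⟩ := main D' hpS' hs' hne' hSinv' hno'
  set A := affineSpan ℝ (Ker S') with hA
  -- the corresponding subspace of `E`
  let f : H.direction →ᵃ[ℝ] E :=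
    (AffineMap.const ℝ H.direction p₀ : H.direction →ᵃ[ℝ] E) +
      H.direction.subtype.toAffineMap
  have hdr : drp H p₀ S = A.map f := rfl
  rw [hdr]
  have hf : ∀ v, f v = p₀ + v.1 := fun v => rfl
  have hmem : ∀ q, q ∈ A.map f ↔ ∃ v ∈ A, p₀ + v.1 = q := fun q => by
    rw [AffineSubspace.mem_map]
    rfl
  have hdir : (A.map f).direction = A.direction.map H.direction.subtype := by
    rw [AffineSubspace.map_direction]
    congr 1
    ext v
    simp [f]
  refine ⟨?_, ?_, ?_, ?_⟩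
  · rw [hdir, (Submodule.equivSubtypeMap H.direction A.direction).finrank_eq.symm]
    apply Submodule.finrank_lt
    intro htop
    apply hspan
    have hAne : (A : Set H.direction).Nonempty :=
      ⟨_, subset_affineSpan ℝ _ ⟨hpS', hs'⟩⟩
    exact (AffineSubspace.direction_eq_top_iff_of_nonempty hAne).1 htop
  · intro γ q hq
    obtain ⟨v, hv, rfl⟩ := (hmem q).1 hq
    refine (hmem _).2 ⟨_, hspi γ v hv, ?_⟩
    rw [subHol_apply, add_sub_cancel]
  · refine ⟨x₂.1, (hmem _).2 ⟨_, subset_affineSpan ℝ _ hx₂, ?_⟩⟩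
    show p₀ + (dev x₂.1 - p₀) = dev x₂.1
    rw [add_sub_cancel]
  · rintro ⟨Z, hZ1, hZ2, hZ3⟩
    apply hfld
    have hin : ∀ x : {x : X // dev x ∈ H}, subDev dev hx₀ x ∈ A → dev x.1 ∈ A.map f := by
      intro x hx
      refine (hmem _).2 ⟨_, hx, ?_⟩
      show p₀ + (dev x.1 - p₀) = dev x.1
      rw [add_sub_cancel]
    have hZd : ∀ x : X, dev x ∈ A.map f → ∃ w ∈ A.direction, (w : E) = Z x := by
      intro x hx
      have h1 := (hZ2 x hx).1
      rw [hdir] at h1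
      exact h1
    refine ⟨fun x => if h : Z x.1 ∈ H.direction then ⟨Z x.1, h⟩ else 0, ?_, ?_, ?_⟩
    · rw [continuousOn_iff_continuous_restrict]
      have hZc : Continuous fun x : subDev dev hx₀ ⁻¹' (A : Set H.direction) => Z x.1.1 := by
        refine hZ1.comp_continuous (by fun_prop) fun x => hin x.1 x.2
      have h2 : ∀ x : subDev dev hx₀ ⁻¹' (A : Set H.direction), Z x.1.1 ∈ H.direction := by
        intro x
        obtain ⟨w, -, hw⟩ := hZd x.1.1 (hin x.1 x.2)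
        rw [← hw]; exact w.2
      refine Continuous.congr (hZc.subtype_mk h2) fun x => ?_
      exact (dif_pos (h2 x)).symm
    · intro x hx
      obtain ⟨w, hwA, hw⟩ := hZd x.1 (hin x hx)
      have h2 : Z x.1 ∈ H.direction := by rw [← hw]; exact w.2
      beta_reduce
      rw [dif_pos h2]
      have h3 : (⟨Z x.1, h2⟩ : H.direction) = w := Subtype.ext hw.symm
      rw [h3]
      refine ⟨hwA, fun h0 => (hZ2 x.1 (hin x hx)).2 ?_⟩
      rw [← hw, h0]; rfl
    · intro γ x hx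
      obtain ⟨w, hwA, hw⟩ := hZd x.1 (hin x hx)
      have h2 : Z x.1 ∈ H.direction := by rw [← hw]; exact w.2
      have h4 := hZ3 γ x.1 (hin x hx)
      have h5 : Z (γ • x).1 = lin hol γ (Z x.1) := h4
      have h6 : Z (γ • x).1 ∈ H.direction := by
        rw [h5]; exact lin_mem_dir hx₀ hinv γ h2
      beta_reduce
      rw [dif_pos h2, dif_pos h6]
      exact Subtype.ext h5

/-- The minimal invariant subspace: `G` has finite index, `H` is invariant under `G`, has positive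
dimension, meets the developing image, has no field over any finite covering and no proper
star-shaped subset which is invariant under a subgroup of finite index. -/
structure Min (dev : X → E) (hol : Γ →* (E ≃ᵃ[ℝ] E)) (G : Subgroup Γ) (H : AffineSubspace ℝ E)
    (x₀ : X) : Prop where
  fin : G.FiniteIndex
  mem : dev x₀ ∈ H
  inv : ∀ γ ∈ G, ∀ q ∈ H, hol γ q ∈ H
  dir : H.direction ≠ ⊥
  fld : ∀ K ≤ G, K.FiniteIndex → ¬ Fld dev (hol.comp K.subtype) H
  star : ∀ K ≤ G, K.FiniteIndex → ∀ (S : Set E) (p : E), p ∈ S → S ⊆ H → StarConvex ℝ p S →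
    (∀ γ ∈ K, ∀ q ∈ S, hol γ q ∈ S) → S = H

theorem exists_min (D : AffMfd X Γ E dev hol) [PreconnectedSpace X] [Nontrivial E]
    (hno : ∀ K : Subgroup Γ, K.FiniteIndex → ¬ Fld dev (hol.comp K.subtype) ⊤) :
    ∃ (G : Subgroup Γ) (H : AffineSubspace ℝ E) (x₀ : X), Min dev hol G H x₀ := by
  classical
  let P : ℕ → Prop := fun n => ∃ (G : Subgroup Γ) (H : AffineSubspace ℝ E),
    Module.finrank ℝ H.direction = n ∧ G.FiniteIndex ∧ (∀ γ ∈ G, ∀ q ∈ H, hol γ q ∈ H) ∧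
      (∃ x, dev x ∈ H) ∧ ∀ K ≤ G, K.FiniteIndex → ¬ Fld dev (hol.comp K.subtype) H
  have hX : Nonempty X := by
    by_contra hX
    rw [not_nonempty_iff] at hX
    exact hno ⊤ inferInstance ⟨fun _ => 0, continuous_of_discreteTopology.continuousOn,
      fun x => hX.elim x, fun _ x => hX.elim x⟩
  obtain ⟨x₁⟩ := hX
  have hP : ∃ n, P n := ⟨_, ⊤, ⊤, rfl, inferInstance, fun γ _ q _ => AffineSubspace.mem_top ℝ E _,
    ⟨x₁, AffineSubspace.mem_top ℝ E _⟩, fun K _ hK => hno K hK⟩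
  obtain ⟨G, H, hHn, hG, hinv, ⟨x₀, hx₀⟩, hHno⟩ := Nat.find_spec hP
  have hmin : ∀ m, P m → Nat.find hP ≤ m := fun m hm => Nat.find_min' hP hm
  refine ⟨G, H, x₀, hG, hx₀, hinv, ?_, hHno, ?_⟩
  · intro hbot
    have h1 : ∀ q ∈ H, q = dev x₀ := by
      intro q hq
      have h2 := sub_mem_dir hx₀ hq
      rw [hbot, Submodule.mem_bot] at h2
      exact sub_eq_zero.1 h2
    refine compact_disjoint (restr D G hG) (K₀ := {dev x₀}) isCompact_singleton ?_ x₀ rfl
    rintro γ q rfl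
    exact h1 _ (hinv γ.1 γ.2 _ hx₀)
  · intro K hKG hK S p hpS hSH hs hSinv
    by_contra hne
    have key : ∀ L ≤ K, L.FiniteIndex → _ := fun L hLK hL =>
      drop (restr D L hL) hx₀ (fun γ q hq => hinv γ.1 (hKG (hLK γ.2)) q hq)
        (hHno L (hLK.trans hKG) hL) hpS hSH hs (fun γ q hq => hSinv γ.1 (hLK γ.2) q hq) hne
    have h1 := key K le_rfl hK
    have hPA : P (Module.finrank ℝ (drp H (dev x₀) S).direction) :=
      ⟨K, drp H (dev x₀) S, rfl, hK, fun γ hγ q hq => h1.2.1 ⟨γ, hγ⟩ q hq, h1.2.2.1,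
        fun L hLK hL => (key L hLK hL).2.2.2⟩
    have h2 := hmin _ hPA
    rw [← hHn] at h2
    exact absurd h1.1 (not_lt.2 h2)

end Pool.Agent.Y150.Ch
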