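import Pool.Agent.Y150.Ch.Bd

/-!
# Semi-invariant affine vector fields, cyclic subgroups
-/

set_option autoImplicit false

open Set Filter Topology Metric

namespace Pool.Agent.Y150.Ch

open Pool.Agent.W689.Ch Pool.Agent.TH845.Mk
open Pool.Agent.W689.Mk (lin hol_add hol_sub hol_inv_apply hol_apply_inv lin_inv_apply lin_mul
  hol_cont)

variable {X Γ E : Type} [TopologicalSpace X] [T2Space X] [Group Γ] [MulAction Γ X]
  [NormedAddCommGroup E] [NormedSpace ℝ E] [FiniteDimensional ℝ E]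
  {dev : X → E} {hol : Γ →* (E ≃ᵃ[ℝ] E)} {G : Subgroup Γ} {H : AffineSubspace ℝ E} {x₀ : X}

/-- invariant convex sets of tangent vectors contain zero -/
theorem zero_mem (D : AffMfd X Γ E dev hol) (m : Min dev hol G H x₀) {K : Subgroup Γ} (hKG : K ≤ G)
    (hK : K.FiniteIndex) {C : Set E} (hC : Convex ℝ C) (hCH : C ⊆ H.direction) (hne : C.Nonempty)
    (hinv : ∀ γ ∈ K, ∀ v ∈ C, lin hol γ v ∈ C) : (0 : E) ∈ C := by
  by_contra h0
  obtain ⟨c, hc⟩ := hne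
  have hinvH : ∀ (γ : K), ∀ q ∈ H, (hol.comp K.subtype) γ q ∈ H :=
    fun γ q hq => m.inv γ.1 (hKG γ.2) q hq
  refine m.fld K hKG hK (fld_of_sub (restr D K hK) m.mem hinvH ?_)
  let _ := subAct (restr D K hK) hinvH
  have D' := subMfd (restr D K hK) m.mem hinvH
  refine field_of_convex D' (N := {v : H.direction | (v : E) ∈ C}) ?_ h0 (c0 := ⟨c, hCH hc⟩)
    fun γ => hinv γ.1 γ.2 c hc
  intro v hv w hw s t hs ht hst
  exact hC hv hw hs ht hst

/-- semi-invariant affine vector fields vanish -/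
theorem semi_zero (D : AffMfd X Γ E dev hol) (m : Min dev hol G H x₀) {K : Subgroup Γ}
    (hKG : K ≤ G) (hK : K.FiniteIndex) (Y : E →ᵃ[ℝ] E) (hY : ∀ p ∈ H, Y p ∈ H.direction)
    (hsemi : ∀ γ ∈ K, ∃ c : ℝ, c ≠ 0 ∧ ∀ p ∈ H, lin hol γ (Y p) = c • Y (hol γ p)) :
    ∀ p ∈ H, Y p = 0 := by
  classical
  by_contra hcon
  push Not at hcon
  obtain ⟨p₁, hp₁, hp₁Y⟩ := hcon
  have hnz : ∀ p ∈ H, Y p ≠ 0 := by
    intro p hp hYp
    have hS := m.star K hKG hK {q | q ∈ H ∧ Y q = 0} p ⟨hp, hYp⟩ (fun q hq => hq.1) ?_ ?_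
    · have h1 : p₁ ∈ {q | q ∈ H ∧ Y q = 0} := by rw [hS]; exact hp₁
      exact hp₁Y h1.2
    · rintro q ⟨hq, hqY⟩ s t hs ht hst
      refine ⟨H.convex hp hq hs ht hst, ?_⟩
      rw [Convex.combo_affine_apply hst, hYp, hqY, smul_zero, smul_zero, add_zero]
    · rintro γ hγ q ⟨hq, hqY⟩
      refine ⟨m.inv γ (hKG hγ) q hq, ?_⟩
      obtain ⟨c, hc, h1⟩ := hsemi γ hγ
      have h2 := h1 q hq
      have h3 : lin hol γ (Y q) = 0 := by rw [hqY]; exact map_zero _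
      rw [h3] at h2
      exact (smul_eq_zero.1 h2.symm).resolve_left hc
  choose c hc0 hc using fun γ : K => hsemi γ.1 γ.2
  have hx := m.mem
  have hinvK : ∀ γ : K, ∀ q ∈ H, hol γ.1 q ∈ H := fun γ q hq => m.inv γ.1 (hKG γ.2) q hq
  have cmul : ∀ γ δ : K, c (γ * δ) = c γ * c δ := by
    intro γ δ
    have h1 := hc (γ * δ) (dev x₀) hx
    have h2 : lin hol (γ * δ : K).1 (Y (dev x₀)) = lin hol γ.1 (lin hol δ.1 (Y (dev x₀))) :=
      lin_mul (hol := hol) γ.1 δ.1 _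
    have h3 : hol (γ * δ : K).1 (dev x₀) = hol γ.1 (hol δ.1 (dev x₀)) := by
      show hol (γ.1 * δ.1) (dev x₀) = _
      rw [map_mul]; rfl
    have h4 : lin hol γ.1 (c δ • Y (hol δ.1 (dev x₀))) =
        c δ • lin hol γ.1 (Y (hol δ.1 (dev x₀))) := map_smul _ _ _
    rw [h2, hc δ _ hx, h4, hc γ _ (hinvK δ _ hx), h3, smul_smul] at h1
    have h5 : Y (hol γ.1 (hol δ.1 (dev x₀))) ≠ 0 := hnz _ (hinvK γ _ (hinvK δ _ hx))
    rw [← smul_left_injective ℝ h5 h1]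
    ring
  have cone : c 1 = 1 := by
    have h1 := cmul 1 1
    rw [mul_one] at h1
    exact (mul_left_cancel₀ (hc0 1) (by rw [mul_one]; exact h1)).symm
  let cH : K →* ℝ := { toFun := c, map_one' := cone, map_mul' := cmul }
  let s : K →* SignTypeˣ := ((signHom : ℝ →*₀ SignType).toMonoidHom.comp cH).toHomUnits
  let K' : Subgroup Γ := s.ker.map K.subtype
  have hK'K : K' ≤ K := Subgroup.map_subtype_le _
  have hK' : K'.FiniteIndex := by
    have h1 : s.ker.FiniteIndex := Subgroup.finiteIndex_ker s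
    refine ⟨?_⟩
    rw [Subgroup.index_map_subtype]
    exact mul_ne_zero h1.index_ne_zero hK.index_ne_zero
  have hpos : ∀ γ : K, γ.1 ∈ K' → 0 < c γ := by
    intro γ hγ
    obtain ⟨δ, hδ, hδγ⟩ := Subgroup.mem_map.1 hγ
    have h1 : δ = γ := Subtype.ext hδγ
    rw [h1] at hδ
    have h2 : s γ = 1 := hδ
    have h3 : SignType.sign (c γ) = 1 := by
      have := congrArg Units.val h2
      exact this
    exact sign_eq_one_iff.1 h3
  -- the field
  have D' := restr D K' hK'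
  obtain ⟨ρ, hρ⟩ := exists_wt D'
  let P : K' → ℝ := fun γ => (c ⟨γ.1, hK'K γ.2⟩)⁻¹
  have hPpos : ∀ γ, P γ ∈ Ioi (0 : ℝ) := fun γ => inv_pos.2 (hpos ⟨γ.1, hK'K γ.2⟩ γ.2)
  refine m.fld K' (hK'K.trans hKG) hK' ⟨fun x => av ρ P x • Y (dev x), ?_, ?_, ?_⟩
  · have h1 : Continuous fun x => Y (dev x) :=
      (Y.continuous_of_finiteDimensional).comp D.loc.continuous
    exact ((av_cont D' hρ P).smul h1).continuousOn
  · intro x hxH
    refine ⟨H.direction.smul_mem _ (hY _ hxH), smul_ne_zero ?_ (hnz _ hxH)⟩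
    have h1 : av ρ P x ∈ Ioi (0 : ℝ) := av_mem hρ (convex_Ioi 0) hPpos x
    exact (mem_Ioi.1 h1).ne'
  · intro δ x hxH
    have hδ := hc ⟨δ.1, hK'K δ.2⟩ (dev x) hxH
    have h1 : av ρ P (δ • x) = c ⟨δ.1, hK'K δ.2⟩ * av ρ P x := by
      rw [av_shift]
      unfold av
      rw [← tsum_mul_left]
      refine tsum_congr fun γ => ?_
      have h2 : P (γ * δ⁻¹) = c ⟨δ.1, hK'K δ.2⟩ * P γ := by
        show (c ⟨(γ * δ⁻¹ : K').1, _⟩)⁻¹ = _
        have h3 : (⟨γ.1, hK'K γ.2⟩ : K) = ⟨(γ * δ⁻¹ : K').1, hK'K (γ * δ⁻¹ : K').2⟩ *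
            ⟨δ.1, hK'K δ.2⟩ := by
          apply Subtype.ext
          show γ.1 = (γ.1 * (δ.1)⁻¹) * δ.1
          group
        show _ = c ⟨δ.1, hK'K δ.2⟩ * (c ⟨γ.1, hK'K γ.2⟩)⁻¹
        rw [h3, cmul, mul_inv_rev, ← mul_assoc, mul_inv_cancel₀ (hc0 _), one_mul]
      beta_reduce
      rw [h2, smul_eq_mul, smul_eq_mul]
      ring
    have h4 : dev (δ • x) = hol δ.1 (dev x) := D.equi δ.1 x
    show av ρ P (δ • x) • Y (dev (δ • x)) = lin hol δ.1 (av ρ P x • Y (dev x))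
    have h5 : lin hol δ.1 (av ρ P x • Y (dev x)) = av ρ P x • lin hol δ.1 (Y (dev x)) :=
      map_smul _ _ _
    rw [h5, hδ, h1, h4, smul_smul]
    congr 1
    ring

end Pool.Agent.Y150.Ch
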