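import Pool.Agent.Y150.Ch.Esc

/-!
# No one-dimensional factors
-/

set_option autoImplicit false

open Set

namespace Pool.Agent.Y150.Ch

open Pool.Agent.W689.Ch Pool.Agent.TH845.Mk
open Pool.Agent.W689.Mk (lin hol_add hol_sub hol_inv_apply hol_apply_inv lin_inv_apply lin_mul
  hol_cont)

/-- the elements with a positive character value -/
theorem pos_index {Γ : Type} [Group Γ] {K : Subgroup Γ} (hK : K.FiniteIndex) (c : K → ℝ)
    (hc0 : ∀ γ, c γ ≠ 0) (cmul : ∀ γ δ, c (γ * δ) = c γ * c δ) :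
    ∃ K' ≤ K, K'.FiniteIndex ∧ ∀ γ : K, γ.1 ∈ K' → 0 < c γ := by
  have cone : c 1 = 1 := by
    have h1 := cmul 1 1
    rw [mul_one] at h1
    exact (mul_left_cancel₀ (hc0 1) (by rw [mul_one]; exact h1)).symm
  let cH : K →* ℝ := { toFun := c, map_one' := cone, map_mul' := cmul }
  let s : K →* SignTypeˣ := ((signHom : ℝ →*₀ SignType).toMonoidHom.comp cH).toHomUnits
  refine ⟨s.ker.map K.subtype, Subgroup.map_subtype_le _, ?_, ?_⟩
  · have h1 : s.ker.FiniteIndex := Subgroup.finiteIndex_ker s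
    refine ⟨?_⟩
    rw [Subgroup.index_map_subtype]
    exact mul_ne_zero h1.index_ne_zero hK.index_ne_zero
  · intro γ hγ
    obtain ⟨δ, hδ, hδγ⟩ := Subgroup.mem_map.1 hγ
    have h1 : δ = γ := Subtype.ext hδγ
    rw [h1] at hδ
    have h2 : s γ = 1 := hδ
    have h3 : SignType.sign (c γ) = 1 := congrArg Units.val h2
    exact sign_eq_one_iff.1 h3

variable {X Γ E : Type} [TopologicalSpace X] [T2Space X] [Group Γ] [MulAction Γ X]
  [NormedAddCommGroup E] [NormedSpace ℝ E] [FiniteDimensional ℝ E]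
  {dev : X → E} {hol : Γ →* (E ≃ᵃ[ℝ] E)} {G : Subgroup Γ} {H : AffineSubspace ℝ E} {x₀ : X}

/-- the linear holonomy has no one-dimensional factors -/
theorem no_line (D : AffMfd X Γ E dev hol) (m : Min dev hol G H x₀) {K : Subgroup Γ}
    (hKG : K ≤ G) (hK : K.FiniteIndex) {W W' : Submodule ℝ E} (hW : W ≤ W')
    (hW' : W' ≤ H.direction) (hWi : ∀ γ ∈ K, ∀ v ∈ W, lin hol γ v ∈ W)
    (hWi' : ∀ γ ∈ K, ∀ v ∈ W', lin hol γ v ∈ W') :
    Module.finrank ℝ W' ≠ Module.finrank ℝ W + 1 := by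
  intro hdim
  have hlt : W < W' := by
    refine lt_of_le_of_ne hW fun h => ?_
    rw [h] at hdim
    omega
  obtain ⟨w, hwW', hwW⟩ := SetLike.exists_of_lt hlt
  obtain ⟨φ, hφw, hφW⟩ := Submodule.exists_le_ker_of_notMem hwW
  -- every vector of `W'` is a multiple of `w` modulo `W`
  have hdec : ∀ u ∈ W', ∃ t : ℝ, u - t • w ∈ W := by
    have h1 : W ⊔ Submodule.span ℝ {w} = W' := by
      refine Submodule.eq_of_le_of_finrank_le (sup_le hW ?_) ?_
      · rw [Submodule.span_singleton_le_iff_mem]; exact hwW'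
      · rw [hdim]
        have h2 : W < W ⊔ Submodule.span ℝ {w} := by
          refine lt_of_le_of_ne le_sup_left fun h => hwW ?_
          rw [h]
          exact (le_sup_right : Submodule.span ℝ {w} ≤ _) (Submodule.mem_span_singleton_self w)
        exact Submodule.finrank_lt_finrank_of_lt h2
    intro u hu
    rw [← h1] at hu
    obtain ⟨a, ha, b, hb, hab⟩ := Submodule.mem_sup.1 hu
    obtain ⟨t, rfl⟩ := Submodule.mem_span_singleton.1 hb
    exact ⟨t, by rw [← hab, add_sub_cancel_right]; exact ha⟩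
  have hφW0 : ∀ v ∈ W, φ v = 0 := fun v hv => LinearMap.mem_ker.1 (hφW hv)
  have hmult : ∀ γ ∈ K, ∀ u ∈ W', φ w * φ (lin hol γ u) = φ (lin hol γ w) * φ u := by
    intro γ hγ u hu
    obtain ⟨t, ht⟩ := hdec u hu
    have h1 : φ u = t * φ w := by
      have := hφW0 _ ht
      rw [map_sub, map_smul, smul_eq_mul] at this
      linarith
    have h2 : φ (lin hol γ u) = t * φ (lin hol γ w) := by
      have h3 := hφW0 _ (hWi γ hγ _ ht)
      have h4 : lin hol γ (u - t • w) = lin hol γ u - t • lin hol γ w := by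
        show T hol γ _ = T hol γ u - t • T hol γ w
        rw [map_sub, map_smul]
      rw [h4, map_sub, map_smul, smul_eq_mul] at h3
      linarith
    rw [h1, h2]
    ring
  let c : K → ℝ := fun γ => φ (lin hol γ.1 w) / φ w
  have hcφ : ∀ (γ : K) (u : E), u ∈ W' → φ (lin hol γ.1 u) = c γ * φ u := by
    intro γ u hu
    have h1 := hmult γ.1 γ.2 u hu
    show _ = φ (lin hol γ.1 w) / φ w * φ u
    rw [div_mul_eq_mul_div, ← h1, mul_div_cancel_left₀ _ hφw]
  have hc0 : ∀ γ, c γ ≠ 0 := by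
    intro γ h0
    have h1 := hcφ γ _ (hWi' _ (K.inv_mem γ.2) w hwW')
    rw [h0, zero_mul] at h1
    have h2 : lin hol γ.1 (lin hol γ.1⁻¹ w) = w := by
      have := lin_inv_apply (hol := hol) γ.1⁻¹ w
      rwa [inv_inv] at this
    rw [h2] at h1
    exact hφw h1
  have cmul : ∀ γ δ : K, c (γ * δ) = c γ * c δ := by
    intro γ δ
    have h1 := hcφ (γ * δ) w hwW'
    have h2 : lin hol (γ * δ : K).1 w = lin hol γ.1 (lin hol δ.1 w) :=
      lin_mul (hol := hol) γ.1 δ.1 w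
    rw [h2, hcφ γ _ (hWi' _ δ.2 w hwW'), hcφ δ _ hwW', ← mul_assoc] at h1
    exact (mul_right_cancel₀ hφw h1).symm
  obtain ⟨K', hK'K, hK', hpos⟩ := pos_index hK c hc0 cmul
  have h0 := zero_mem D m (hK'K.trans hKG) hK' (C := {u | u ∈ W' ∧ 0 < φ w * φ u}) ?_ ?_ ?_ ?_
  · have h1 := h0.2
    rw [map_zero, mul_zero] at h1
    exact lt_irrefl _ h1
  · rintro u ⟨hu, hu'⟩ v ⟨hv, hv'⟩ s t hs ht hst
    refine ⟨W'.add_mem (W'.smul_mem _ hu) (W'.smul_mem _ hv), ?_⟩
    rw [map_add, map_smul, map_smul, smul_eq_mul, smul_eq_mul]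
    have h1 : φ w * (s * φ u + t * φ v) = s * (φ w * φ u) + t * (φ w * φ v) := by ring
    rw [h1]
    rcases eq_or_lt_of_le hs with h | h
    · have ht1 : t = 1 := by linarith
      rw [← h, ht1]
      linarith
    · have h2 : 0 ≤ t * (φ w * φ v) := mul_nonneg ht hv'.le
      have h3 : 0 < s * (φ w * φ u) := mul_pos h hu'
      linarith
  · rintro u ⟨hu, -⟩
    exact hW' hu
  · exact ⟨w, hwW', mul_self_pos.2 hφw⟩
  · rintro γ hγ u ⟨hu, hu'⟩
    refine ⟨hWi' γ (hK'K hγ) u hu, ?_⟩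
    rw [hcφ ⟨γ, hK'K hγ⟩ u hu]
    have h1 := hpos ⟨γ, hK'K hγ⟩ hγ
    have h2 : φ w * (c ⟨γ, hK'K hγ⟩ * φ u) = c ⟨γ, hK'K hγ⟩ * (φ w * φ u) := by ring
    rw [h2]
    exact mul_pos h1 hu'

end Pool.Agent.Y150.Ch
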